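import Pool.Agent.Helper35.SN.FDMain
import Pool.Agent.Helper12.SN.LcE

set_option autoImplicit false

/-!
# PROJECT SB, block N, part C: Frobenius-invariant classes of `RR ℓ c` (SB-N-C07)

Proof.  `E := FractionRing (RR ℓ c)`, an `f`-algebra by `(algebraMap (RR ℓ c) E).comp con`;
`O : Subalgebra f E` the range of `algebraMap (RR ℓ c) E`; `e : RR ℓ c ≃+* O`.
`D : FD.Data f E O q ℓ` with `x = algebraMap xx`, `b j = algebraMap (uu (j : ZMod ℓ))` (`j : Fin ℓ`,
bijection `Fin ℓ → ZMod ℓ`), `lc = lcE ℓ c E`, `Φ = fE E (RR.mapEquiv φ hc)`.  Fields: `mem`,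
`indep` from `eq_sum_uu`, `RR.ext` (`aeval x r = algebraMap (r • 1)`); `frac` from
`IsFractionRing.div_surjective`; `intcl` from `isIntegrallyClosed_RR` transported by `e`; `Φ_b`,
`Φ_x`, `Φ_f` from `fE_algebraMap`, `mapEquiv_ap`; `lc_const` from `lcE_algebraMap`, `lc_con`; `lc_Φ`
from `lcE_mapEquiv`; `units` from `unit_eq_con`.  `FD.Data.finite_fixed` gives finitely many classes
of `O`; transport with `clm e`: for `a = cl J` with `clm (mapEquiv φ) a = a` the ideal `J.map e` has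
`D.Tw (J.map e) h` for `h = b / a`, `span {a} * J.map (mapEquiv φ) = span {b} * J` (`cl_eq_iff`).
`IsDedekindDomain O`: transport along `e` (`RingEquiv.isDedekindDomain`).
-/

open Polynomial

namespace Pool.Agent.SB

open Pool.Agent.Helper12.SN

private theorem fdInst_ded {A B : Type} [CommRing A] [CommRing B] [IsDomain B] (e : A ≃+* B)
    [IsDedekindDomain A] : IsDedekindDomain B := by
  have h1 : IsNoetherianRing B := isNoetherianRing_of_ringEquiv A e
  have h2 : IsIntegrallyClosed B := IsIntegrallyClosed.of_equiv e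
  have h3 : Ring.DimensionLEOne B := by
    refine ⟨fun {P} hP hPp => ?_⟩
    have h4 : P.comap e ≠ ⊥ := by
      intro h5
      apply hP
      rw [← Ideal.comap_bot_of_injective e e.injective] at h5
      exact Ideal.comap_injective_of_surjective e e.surjective h5
    have h6 : (P.comap e).IsMaximal := Ring.DimensionLEOne.maximalOfPrime h4 inferInstance
    have h7 := Ideal.map_isMaximal_of_equiv e (p := P.comap e)
    rwa [Ideal.map_comap_of_surjective e e.surjective] at h7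
  exact (isDedekindDomain_iff B (FractionRing B)).2
    ⟨inferInstance, h1, h3, fun h => IsIntegrallyClosed.isIntegral_iff.1 h⟩

section fdInst

variable {ℓ : ℕ} [Fact ℓ.Prime] {f : Type} [Field f] {c : Fin 3 → f} [Good ℓ c]
  {E : Type} [Field E] [Algebra (RR ℓ c) E] [IsFractionRing (RR ℓ c) E] [Algebra f E]

private theorem fdInst_inj : Function.Injective (algebraMap (RR ℓ c) E) :=
  IsFractionRing.injective (RR ℓ c) E

/-- the image of `RR ℓ c` in the fraction field -/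
private def fdInstO (hcon : ∀ a : f, algebraMap f E a = algebraMap (RR ℓ c) E (con a)) :
    Subalgebra f E where
  carrier := Set.range (algebraMap (RR ℓ c) E)
  mul_mem' := by
    rintro _ _ ⟨a, rfl⟩ ⟨b, rfl⟩
    exact ⟨a * b, map_mul _ _ _⟩
  add_mem' := by
    rintro _ _ ⟨a, rfl⟩ ⟨b, rfl⟩
    exact ⟨a + b, map_add _ _ _⟩
  algebraMap_mem' := fun r => ⟨con r, (hcon r).symm⟩

/-- the isomorphism onto the image -/
private noncomputable def fdInstE (hcon : ∀ a : f, algebraMap f E a = algebraMap (RR ℓ c) E (con a)) :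
    RR ℓ c ≃+* fdInstO (ℓ := ℓ) (c := c) hcon :=
  RingEquiv.ofBijective
    ({ toFun := fun r => ⟨algebraMap (RR ℓ c) E r, ⟨r, rfl⟩⟩
       map_one' := Subtype.ext (map_one _)
       map_mul' := fun a b => Subtype.ext (map_mul _ a b)
       map_zero' := Subtype.ext (map_zero _)
       map_add' := fun a b => Subtype.ext (map_add _ a b) } :
         RR ℓ c →+* fdInstO (ℓ := ℓ) (c := c) hcon)
    ⟨fun a b h => fdInst_inj (congrArg Subtype.val h), by
      rintro ⟨_, r, rfl⟩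
      exact ⟨r, rfl⟩⟩

private theorem fdInstE_coe (hcon : ∀ a : f, algebraMap f E a = algebraMap (RR ℓ c) E (con a))
    (r : RR ℓ c) : ((fdInstE hcon r : fdInstO (ℓ := ℓ) (c := c) hcon) : E) =
      algebraMap (RR ℓ c) E r := rfl

private theorem fdInst_aeval (hcon : ∀ a : f, algebraMap f E a = algebraMap (RR ℓ c) E (con a))
    (r : f[X]) : aeval (algebraMap (RR ℓ c) E xx) r =
      algebraMap (RR ℓ c) E (algebraMap f[X] (RR ℓ c) r) := by
  have h : (aeval (algebraMap (RR ℓ c) E xx) : f[X] →ₐ[f] E).toRingHom =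
      (algebraMap (RR ℓ c) E).comp (algebraMap f[X] (RR ℓ c)) := by
    refine Polynomial.ringHom_ext (fun a => ?_) ?_
    · show aeval (algebraMap (RR ℓ c) E xx) (C a) = _
      rw [aeval_C, hcon]
      rfl
    · show aeval (algebraMap (RR ℓ c) E xx) X = _
      rw [aeval_X]
      rfl
  exact congrArg (fun F : f[X] →+* E => F r) h

private theorem fdInst_sum (hcon : ∀ a : f, algebraMap f E a = algebraMap (RR ℓ c) E (con a))
    (σ : Fin ℓ ≃ ZMod ℓ) (r : Fin ℓ → f[X]) :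
    ∑ j, aeval (algebraMap (RR ℓ c) E xx) (r j) * algebraMap (RR ℓ c) E (uu (σ j)) =
      algebraMap (RR ℓ c) E ⟨fun k => r (σ.symm k)⟩ := by
  rw [eq_sum_uu (⟨fun k => r (σ.symm k)⟩ : RR ℓ c), map_sum, ← Equiv.sum_comp σ]
  refine Finset.sum_congr rfl fun j _ => ?_
  rw [fdInst_aeval hcon, ← map_mul, ← Algebra.smul_def]
  show _ = algebraMap (RR ℓ c) E (r (σ.symm (σ j)) • uu (σ j))
  rw [Equiv.symm_apply_apply]

private theorem fdInst_xx (φ : f ≃+* f) (hc : ∀ i, φ (c i) = c i) :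
    (RR.mapEquiv φ hc : RR ℓ c ≃+* RR ℓ c) xx = xx := by
  ext1 j
  rw [mapEquiv_ap]
  unfold xx
  rw [algebraMap_ap]
  split_ifs
  · exact Polynomial.map_X _
  · exact Polynomial.map_zero _

private theorem fdInst_uu (φ : f ≃+* f) (hc : ∀ i, φ (c i) = c i) (k : ZMod ℓ) :
    (RR.mapEquiv φ hc : RR ℓ c ≃+* RR ℓ c) (uu k) = uu k := by
  ext1 j
  rw [mapEquiv_ap, uu_ap]
  split_ifs
  · exact Polynomial.map_one _
  · exact Polynomial.map_zero _

private theorem fdInst_con (φ : f ≃+* f) (hc : ∀ i, φ (c i) = c i) (a : f) :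
    (RR.mapEquiv φ hc : RR ℓ c ≃+* RR ℓ c) (con a) = con (φ a) := by
  ext1 j
  rw [mapEquiv_ap, con_ap, con_ap]
  split_ifs
  · exact Polynomial.map_C _
  · exact Polynomial.map_zero _

private theorem fdInst_data (hcon : ∀ a : f, algebraMap f E a = algebraMap (RR ℓ c) E (con a))
    (q : ℕ) (hq : 1 < q) (hq0 : (q : f) = 0)
    (hfin : ∀ z : f, ∃ n : ℕ, 0 < n ∧ z ^ (q ^ n) = z) (φ : f ≃+* f) (hφ : ∀ z, φ z = z ^ q)
    (hc : ∀ i, φ (c i) = c i) :
    ∃ D : FD.Data f E (fdInstO (ℓ := ℓ) (c := c) hcon) q ℓ, ∀ r : RR ℓ c,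
      D.Φ (algebraMap (RR ℓ c) E r) = algebraMap (RR ℓ c) E (RR.mapEquiv φ hc r) := by
  obtain ⟨σ⟩ : Nonempty (Fin ℓ ≃ ZMod ℓ) :=
    ⟨Fintype.equivOfCardEq (by rw [Fintype.card_fin, ZMod.card])⟩
  refine ⟨
    { x := algebraMap (RR ℓ c) E xx
      b := fun j => algebraMap (RR ℓ c) E (uu (σ j))
      lc := lcE ℓ c E
      Φ := fE E (RR.mapEquiv φ hc : RR ℓ c ≃+* RR ℓ c)
      one_lt := hq
      q_zero := hq0
      fin := hfin
      mem := ?_
      indep := ?_
      frac := ?_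
      intcl := ?_
      Φ_x := ?_
      Φ_b := ?_
      Φ_f := ?_
      lc_const := ?_
      lc_Φ := ?_
      units := ?_ }, fun r => fE_algebraMap _ r⟩
  · intro h
    constructor
    · rintro ⟨s, rfl⟩
      refine ⟨fun j => s (σ j), ?_⟩
      rw [fdInst_sum hcon]
      congr 1
      ext1 k
      show s k = s (σ (σ.symm k))
      rw [Equiv.apply_symm_apply]
    · rintro ⟨r, rfl⟩
      exact ⟨_, (fdInst_sum hcon σ r).symm⟩
  · intro r hr
    rw [fdInst_sum hcon] at hr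
    have h1 : (⟨fun k => r (σ.symm k)⟩ : RR ℓ c) = 0 :=
      fdInst_inj (E := E) (by rw [hr, map_zero])
    funext j
    have h2 := congrArg (fun s : RR ℓ c => s (σ j)) h1
    have h3 : r (σ.symm (σ j)) = 0 := h2
    rw [Equiv.symm_apply_apply] at h3
    exact h3
  · intro h
    obtain ⟨a, d, hd, rfl⟩ := IsFractionRing.div_surjective (A := RR ℓ c) h
    refine ⟨_, ⟨a, rfl⟩, _, ⟨d, rfl⟩, ?_, rfl⟩
    rw [Ne, map_eq_zero_iff _ fdInst_inj]
    exact nonZeroDivisors.ne_zero hd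
  · rintro h ⟨p, hp, hp0⟩
    have h1 : IsIntegral (RR ℓ c) h := by
      refine ⟨p.map ((fdInstE hcon).symm : fdInstO (ℓ := ℓ) (c := c) hcon →+* RR ℓ c),
        hp.map _, ?_⟩
      rw [eval₂_map]
      have h2 : (algebraMap (RR ℓ c) E).comp
          ((fdInstE hcon).symm : fdInstO (ℓ := ℓ) (c := c) hcon →+* RR ℓ c) =
          algebraMap (fdInstO (ℓ := ℓ) (c := c) hcon) E := by
        ext1 o
        show algebraMap (RR ℓ c) E ((fdInstE hcon).symm o) = (o : E)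
        rw [← fdInstE_coe hcon, RingEquiv.apply_symm_apply]
      rw [h2]
      exact hp0
    obtain ⟨y, hy⟩ := IsIntegrallyClosed.isIntegral_iff.1 h1
    exact ⟨y, hy⟩
  · rw [fE_algebraMap, fdInst_xx]
  · intro j
    rw [fE_algebraMap, fdInst_uu]
  · intro a
    rw [hcon, fE_algebraMap, fdInst_con, hφ, hcon]
  · intro a
    rw [hcon, lcE_algebraMap, lc_con]
  · intro h
    rw [lcE_mapEquiv, hφ]
  · rintro u hu ⟨r, rfl⟩ ⟨s, hs⟩
    have h1 : r * s = 1 := by
      apply fdInst_inj (E := E)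
      rw [map_mul, hs, mul_inv_cancel₀ hu, map_one]
    have h2 := (unit_eq_con (IsUnit.of_mul_eq_one s h1)).1
    exact ⟨lc r, by rw [hcon, ← h2]⟩

private theorem fdInst_main [IsAlgClosed f]
    (hcon : ∀ a : f, algebraMap f E a = algebraMap (RR ℓ c) E (con a))
    (q : ℕ) (hq : 1 < q) (hq0 : (q : f) = 0)
    (hfin : ∀ z : f, ∃ n : ℕ, 0 < n ∧ z ^ (q ^ n) = z) (φ : f ≃+* f) (hφ : ∀ z, φ z = z ^ q)
    (hc : ∀ i, φ (c i) = c i) :
    Set.Finite {a : ClassGroup (RR ℓ c) | clm (RR.mapEquiv φ hc : RR ℓ c ≃+* RR ℓ c) a = a} := by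
  obtain ⟨D, hD⟩ := fdInst_data hcon q hq hq0 hfin φ hφ hc
  have hded : IsDedekindDomain (fdInstO (ℓ := ℓ) (c := c) hcon) :=
    fdInst_ded (fdInstE hcon)
  refine (D.finite_fixed.preimage ((clm (fdInstE hcon)).injective.injOn)).subset ?_
  intro a ha
  obtain ⟨J, hJ, rfl⟩ := cl_surj a
  have ha' : clm (RR.mapEquiv φ hc : RR ℓ c ≃+* RR ℓ c) (cl J) = cl J := ha
  rw [clm_cl _ hJ] at ha'
  obtain ⟨α, β, hα, hβ, hab⟩ := (cl_eq_iff (map_ne_bot _ hJ) hJ).1 ha'
  have hα' : algebraMap (RR ℓ c) E α ≠ 0 := by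
    rw [Ne, map_eq_zero_iff _ fdInst_inj]
    exact hα
  have hβ' : algebraMap (RR ℓ c) E β ≠ 0 := by
    rw [Ne, map_eq_zero_iff _ fdInst_inj]
    exact hβ
  have hJe := map_ne_bot (fdInstE hcon) hJ
  refine ⟨⟨J.map (fdInstE hcon), mem_nonZeroDivisors_of_ne_zero hJe⟩,
    algebraMap (RR ℓ c) E β / algebraMap (RR ℓ c) E α, ?_, div_ne_zero hβ' hα', ?_⟩
  · rw [clm_cl _ hJ, cl_of_ne hJe]
  · intro z
    constructor
    · rintro ⟨j, hj, rfl⟩
      obtain ⟨i, hi, rfl⟩ := (Ideal.mem_map_of_equiv (fdInstE hcon) j).1 hj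
      have h1 : α * RR.mapEquiv φ hc i ∈ Ideal.span {β} * J := by
        rw [← hab]
        exact Ideal.mem_span_singleton_mul.2 ⟨_, Ideal.mem_map_of_mem _ hi, rfl⟩
      obtain ⟨i', hi', h2⟩ := Ideal.mem_span_singleton_mul.1 h1
      refine ⟨fdInstE hcon i', Ideal.mem_map_of_mem _ hi', ?_⟩
      rw [fdInstE_coe, fdInstE_coe, hD, div_mul_eq_mul_div, div_eq_iff hα', ← map_mul, ← map_mul,
        h2, mul_comm]
    · rintro ⟨j, hj, rfl⟩
      obtain ⟨i', hi', rfl⟩ := (Ideal.mem_map_of_equiv (fdInstE hcon) j).1 hj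
      have h1 : β * i' ∈ Ideal.span {α} * J.map (RR.mapEquiv φ hc : RR ℓ c ≃+* RR ℓ c) := by
        rw [hab]
        exact Ideal.mem_span_singleton_mul.2 ⟨_, hi', rfl⟩
      obtain ⟨w, hw, h2⟩ := Ideal.mem_span_singleton_mul.1 h1
      obtain ⟨i, hi, rfl⟩ := (Ideal.mem_map_of_equiv _ w).1 hw
      refine ⟨fdInstE hcon i, Ideal.mem_map_of_mem _ hi, ?_⟩
      rw [fdInstE_coe, fdInstE_coe, hD, div_mul_eq_mul_div, eq_div_iff hα', ← map_mul, ← map_mul,
        ← h2, mul_comm]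

end fdInst

theorem finite_frob {ℓ : ℕ} [Fact ℓ.Prime] {f : Type} [Field f] [IsAlgClosed f] {c : Fin 3 → f}
    [Good ℓ c] (q : ℕ) (hq : 1 < q) (hq0 : (q : f) = 0)
    (hfin : ∀ z : f, ∃ n : ℕ, 0 < n ∧ z ^ (q ^ n) = z) (φ : f ≃+* f) (hφ : ∀ z, φ z = z ^ q)
    (hc : ∀ i, φ (c i) = c i) :
    Set.Finite {a : ClassGroup (RR ℓ c) | clm (RR.mapEquiv φ hc : RR ℓ c ≃+* RR ℓ c) a = a} := by
  letI : Algebra f (FractionRing (RR ℓ c)) :=
    ((algebraMap (RR ℓ c) (FractionRing (RR ℓ c))).comp con).toAlgebra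
  exact fdInst_main (E := FractionRing (RR ℓ c)) (fun _ => rfl) q hq hq0 hfin φ hφ hc

end Pool.Agent.SB
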