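import Pool.Agent.Helper35.SN.Deviss

set_option autoImplicit false

/-!
# PROJECT SB, block N: the `(1 - ρ)`-primary part is `ℓ`-primary (N7; proved)
-/

open Finset

namespace Pool.Agent.SB

variable {A : Type*} [CommGroup A]

/-- `1 - ρ` -/
def oneSub (ρ : A →* A) : A →* A := (MonoidHom.id A) / ρ

theorem oneSub_ap (ρ : A →* A) (a : A) : oneSub ρ a = a / ρ a := rfl

/-- `v = ∑_{i < ℓ} ∑_{j < i} ρ ^ j` -/
def vHom (ρ : A →* A) (ℓ : ℕ) : A →* A where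
  toFun a := ∏ i ∈ range ℓ, ∏ j ∈ range i, (⇑ρ)^[j] a
  map_one' := by simp [iterate_map_one]
  map_mul' a b := by simp [iterate_map_mul, prod_mul_distrib]

theorem vHom_ap (ρ : A →* A) (ℓ : ℕ) (a : A) :
    vHom ρ ℓ a = ∏ i ∈ range ℓ, ∏ j ∈ range i, (⇑ρ)^[j] a := rfl

theorem oneSub_iter_comm (ρ : A →* A) (j : ℕ) (a : A) :
    oneSub ρ ((⇑ρ)^[j] a) = (⇑ρ)^[j] (oneSub ρ a) := by
  rw [oneSub_ap, oneSub_ap, iterate_map_div, ← Function.iterate_succ_apply (⇑ρ),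
    ← Function.iterate_succ_apply' (⇑ρ)]

theorem oneSub_vHom (ρ : A →* A) (ℓ : ℕ) (a : A) :
    oneSub ρ (vHom ρ ℓ a) = vHom ρ ℓ (oneSub ρ a) := by
  simp only [vHom_ap, map_prod, oneSub_iter_comm]

theorem pow_eq (ρ : A →* A) (ℓ : ℕ) (hρ : ∀ a, ∏ i ∈ range ℓ, (⇑ρ)^[i] a = 1) (a : A) :
    a ^ ℓ = oneSub ρ (vHom ρ ℓ a) := by
  have h1 : ∀ i, ∏ j ∈ range i, oneSub ρ ((⇑ρ)^[j] a) = a / (⇑ρ)^[i] a := by
    intro i
    have h2 : ∀ j, oneSub ρ ((⇑ρ)^[j] a) = (⇑ρ)^[j] a / (⇑ρ)^[j + 1] a := by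
      intro j
      rw [oneSub_ap, Function.iterate_succ_apply']
    simp only [h2]
    exact prod_range_div' (fun j => (⇑ρ)^[j] a) i
  rw [vHom_ap, map_prod]
  simp only [map_prod, h1]
  rw [prod_div_distrib, hρ a, div_one, prod_const, card_range]

theorem pow_of_primPart (ρ : A →* A) (ℓ : ℕ) (hρ : ∀ a, ∏ i ∈ range ℓ, (⇑ρ)^[i] a = 1) (n : ℕ) :
    ∀ a : A, (⇑(oneSub ρ))^[n] a = 1 → a ^ (ℓ ^ n) = 1 := by
  induction n with
  | zero =>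
    intro a ha
    rw [pow_zero, pow_one]
    exact ha
  | succ n ih =>
    intro a ha
    rw [Function.iterate_succ_apply] at ha
    have h1 := ih _ ha
    rw [pow_succ', pow_mul, pow_eq ρ ℓ hρ, oneSub_vHom, ← map_pow, h1, map_one]

theorem exists_pow_of_primPart (ρ : A →* A) (ℓ : ℕ)
    (hρ : ∀ a, ∏ i ∈ range ℓ, (⇑ρ)^[i] a = 1) {a : A} (ha : a ∈ primPart (oneSub ρ)) :
    ∃ M : ℕ, 1 ≤ M ∧ a ^ (ℓ ^ M) = 1 := by
  obtain ⟨n, hn⟩ := ha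
  refine ⟨n + 1, Nat.le_add_left 1 n, ?_⟩
  rw [pow_succ, pow_mul, pow_of_primPart ρ ℓ hρ n a hn, one_pow]

end Pool.Agent.SB
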