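import Pool.Agent.Helper35.SN.ResF
import Pool.Agent.Helper35.SN.FDInst
import Pool.Agent.Helper35.SN.Prim
import Pool.Agent.Helper12.SN.Jac

set_option autoImplicit false

/-!
# PROJECT SB, block N, part D: the classes (proved from the reduction homomorphism)

`HasRed`: the reduction homomorphism of class groups (part (b), helper87).
-/

open IsLocalRing

namespace Pool.Agent.SB

open Pool.Agent.Helper12.SN

section

variable {W : Type} [Field W] (V : ValuationSubring W) {ℓ : ℕ} [Fact ℓ.Prime] (c : Fin 3 → V)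

/-- the reduction homomorphism of class groups -/
def HasRed [Good ℓ (fun i => (c i : W))] [Good ℓ (fun i => residue V (c i))] (z : V)
    (hz : IsPrimitiveRoot (z : W) ℓ) (hz' : IsPrimitiveRoot (residue V z) ℓ) : Prop :=
  ∃ red : ClassGroup (RR ℓ (fun i => (c i : W))) →*
      ClassGroup (RR ℓ (fun i => residue V (c i))),
    (∀ (τ : W ≃+* W) (hτ : ∀ i, τ ((c i : V) : W) = c i)
      (τ' : ResidueField V ≃+* ResidueField V)
      (hτ' : ∀ i, τ' (residue V (c i)) = residue V (c i)) (τV : V ≃+* V),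
      (∀ a : V, (τV a : W) = τ a) → (∀ a : V, residue V (τV a) = τ' (residue V a)) →
      ∀ a, red (clm (RR.mapEquiv τ hτ : RR ℓ (fun i => (c i : W)) ≃+* RR ℓ (fun i => (c i : W))) a) =
        clm (RR.mapEquiv τ' hτ' : RR ℓ (fun i => residue V (c i)) ≃+*
          RR ℓ (fun i => residue V (c i))) (red a)) ∧
    (∀ a, red (clm (rot (z : W) hz.pow_eq_one) a) =
      clm (rot (residue V z) hz'.pow_eq_one) (red a)) ∧
    ∀ a ∈ primPart (pi1 (z : W) hz.pow_eq_one :
      ClassGroup (RR ℓ (fun i => (c i : W))) →* _), red a = 1 → a = 1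

end

section

variable {W : Type} [Field W] [IsAlgClosed W] (V : ValuationSubring W) {ℓ : ℕ} [Fact ℓ.Prime]
  (c : Fin 3 → V) [Good ℓ (fun i => (c i : W))] [Good ℓ (fun i => residue V (c i))] (z : V)
  (hz : IsPrimitiveRoot (z : W) ℓ) (hz' : IsPrimitiveRoot (residue V z) ℓ)

omit [IsAlgClosed W] [Good ℓ (fun i => residue V (c i))] in
theorem pi1_comm (τ : W ≃+* W) (hτ : ∀ i, τ ((c i : V) : W) = c i) (hτz : τ (z : W) = z)
    (a : ClassGroup (RR ℓ (fun i => (c i : W)))) :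
    pi1 (z : W) hz.pow_eq_one
        (clm (RR.mapEquiv τ hτ : RR ℓ (fun i => (c i : W)) ≃+* RR ℓ (fun i => (c i : W))) a) =
      clm (RR.mapEquiv τ hτ : RR ℓ (fun i => (c i : W)) ≃+* RR ℓ (fun i => (c i : W)))
        (pi1 (z : W) hz.pow_eq_one a) := by
  rw [pi1_ap, pi1_ap, map_div]
  congr 1
  refine clm_comm _ _ _ _ (fun r => ?_) a
  refine RR.ext fun j => ?_
  rw [rot_ap, mapEquiv_ap, mapEquiv_ap, rot_ap, Polynomial.map_mul, Polynomial.map_C]
  have h1 : (τ : W →+* W) ((z : W) ^ j.val) = (z : W) ^ j.val := by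
    rw [map_pow]
    exact congrArg (· ^ j.val) hτz
  rw [h1]

omit [IsAlgClosed W] [Good ℓ (fun i => residue V (c i))] in
theorem mem_primPart_clm (τ : W ≃+* W) (hτ : ∀ i, τ ((c i : V) : W) = c i)
    (hτz : τ (z : W) = z) {a : ClassGroup (RR ℓ (fun i => (c i : W)))}
    (ha : a ∈ primPart (pi1 (z : W) hz.pow_eq_one :
      ClassGroup (RR ℓ (fun i => (c i : W))) →* _)) :
    clm (RR.mapEquiv τ hτ : RR ℓ (fun i => (c i : W)) ≃+* RR ℓ (fun i => (c i : W))) a ∈
      primPart (pi1 (z : W) hz.pow_eq_one : ClassGroup (RR ℓ (fun i => (c i : W))) →* _) :=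
  primPart_map (φ := (clm (RR.mapEquiv τ hτ :
    RR ℓ (fun i => (c i : W)) ≃+* RR ℓ (fun i => (c i : W)))).toMonoidHom)
    (fun a => pi1_comm V c z hz τ hτ hτz a) ha

theorem clm_of_id {R : Type} [CommRing R] [IsDedekindDomain R] (g : R ≃+* R)
    (hg : ∀ r, g r = r) (a : ClassGroup R) : clm g a = a := by
  obtain ⟨I, hI, rfl⟩ := cl_surj a
  rw [clm_cl g hI]
  congr 1
  have h1 : (g : R →+* R) = RingHom.id R := RingHom.ext hg
  calc I.map g = I.map (g : R →+* R) := rfl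
    _ = I := by rw [h1, Ideal.map_id]

/-- inertia acts trivially on the `(1 - ρ)`-primary part -/
theorem iner_thm (hred : HasRed V c z hz hz') (γ : W ≃+* W)
    (hγV : ∀ x, γ x ∈ V ↔ x ∈ V) (hγc : ∀ i, γ ((c i : V) : W) = c i)
    (hγz : γ (z : W) = z)
    (hγ : ∀ x ∈ V, γ x - x ∈ V.nonunits)
    (B : ClassGroup (RR ℓ (fun i => (c i : W))))
    (hB : B ∈ primPart (pi1 (z : W) hz.pow_eq_one :
      ClassGroup (RR ℓ (fun i => (c i : W))) →* _)) :
    clm (RR.mapEquiv γ hγc : RR ℓ (fun i => (c i : W)) ≃+* RR ℓ (fun i => (c i : W))) B = B := by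
  obtain ⟨red, h1, -, h3⟩ := hred
  obtain ⟨γV, γ', hγV', hγ'⟩ := exists_resid_equiv V γ hγV
  have hid : ∀ x : ResidueField V, γ' x = x := by
    intro x
    obtain ⟨a, rfl⟩ := residue_surjective x
    rw [← hγ', resid_eq_iff, hγV']
    exact hγ _ a.2
  have h4 := h1 γ hγc γ' (fun i => hid _) γV hγV' hγ' B
  have h40 : clm (RR.mapEquiv γ' (fun i => hid _) : RR ℓ (fun i => residue V (c i)) ≃+*
      RR ℓ (fun i => residue V (c i))) (red B) = red B := by
    refine clm_of_id _ (fun r => ?_) _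
    refine RR.ext fun j => ?_
    rw [mapEquiv_ap]
    have h6 : (γ' : ResidueField V →+* ResidueField V) = RingHom.id _ := RingHom.ext hid
    rw [h6, Polynomial.map_id]
  rw [h40] at h4
  · have h5 := h3 (clm (RR.mapEquiv γ hγc) B / B)
      (div_mem (mem_primPart_clm V c z hz γ hγc hγz hB) hB)
      (by rw [map_div, h4, div_self'])
    exact div_eq_one.1 h5

/-- `σ - 1` is surjective on the `(1 - ρ)`-primary part -/
theorem class_thm (hred : HasRed V c z hz hz') {p q r : ℕ} (hp : p.Prime) (hr : 0 < r)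
    (hq : q = p ^ r) (hpV : (p : W) ∈ V.nonunits)
    (teich : ∀ x : W, x ∈ V → x ∉ V.nonunits →
      ∃ (N : ℕ) (ζ y : W), ¬ p ∣ N ∧ ζ ^ N = 1 ∧ y ∈ V.nonunits ∧ x = ζ * (1 + y))
    (σ : W ≃+* W) (hσV : ∀ x, σ x ∈ V ↔ x ∈ V) (hσc : ∀ i, σ ((c i : V) : W) = c i)
    (hσz : σ (z : W) = z) (hσ : ∀ x ∈ V, σ x - x ^ q ∈ V.nonunits) (i : Fin 3) :
    ∃ B ∈ primPart (pi1 (z : W) hz.pow_eq_one :
      ClassGroup (RR ℓ (fun i => (c i : W))) →* _),
      clm (RR.mapEquiv σ hσc : RR ℓ (fun i => (c i : W)) ≃+* RR ℓ (fun i => (c i : W))) B =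
        B * cl (pp (fun i => (c i : W)) i) := by
  obtain ⟨red, h1, -, h3⟩ := hred
  obtain ⟨σV, σ', hσV', hσ'⟩ := exists_resid_equiv V σ hσV
  have hfr : ∀ x : ResidueField V, σ' x = x ^ q := by
    intro x
    obtain ⟨a, rfl⟩ := residue_surjective x
    rw [← hσ', ← map_pow, resid_eq_iff, hσV']
    exact hσ _ a.2
  have hfix : ∀ i, σ' (residue V (c i)) = residue V (c i) := by
    intro i
    rw [← hσ']
    congr 1
    exact Subtype.ext (by rw [hσV', hσc])
  haveI : IsAlgClosed (ResidueField V) := resid_algClosed V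
  have hq1 : 1 < q := by
    rw [hq]
    exact Nat.one_lt_pow hr.ne' hp.one_lt
  have hfin := finite_frob (f := ResidueField V) (ℓ := ℓ) (c := fun i => residue V (c i)) q hq1 (resid_q V hr hq hpV)
    (resid_root V hp hr hq teich) σ' hfr hfix
  set π : ClassGroup (RR ℓ (fun i => (c i : W))) →* ClassGroup (RR ℓ (fun i => (c i : W))) :=
    pi1 (z : W) hz.pow_eq_one with hπ
  let φ : ClassGroup (RR ℓ (fun i => (c i : W))) →* ClassGroup (RR ℓ (fun i => (c i : W))) :=
    (clm (RR.mapEquiv σ hσc)).toMonoidHom / MonoidHom.id _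
  have hφ : ∀ a, φ a = clm (RR.mapEquiv σ hσc) a / a := fun _ => rfl
  have hcomm : ∀ a, π (φ a) = φ (π a) := by
    intro a
    rw [hφ, hφ, map_div, hπ, pi1_comm V c z hz σ hσc hσz a]
  have hker : Set.Finite {a | π a = 1} := by
    refine ((Set.finite_range (fun t : Fin ℓ × Fin ℓ =>
      cl (pp (fun i => (c i : W)) 0) ^ (t.1 : ℕ) *
        cl (pp (fun i => (c i : W)) 2) ^ (t.2 : ℕ)))).subset ?_
    intro a ha
    obtain ⟨m, n, hm, hn, h⟩ := ker_pi1 hz a ha
    exact ⟨(⟨m, hm⟩, ⟨n, hn⟩), h.symm⟩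
  have hinv : Set.Finite {a | a ∈ primPart π ∧ φ a = 1} := by
    refine Set.Finite.of_finite_image (f := red) (hfin.subset ?_) ?_
    · rintro _ ⟨a, ⟨-, ha⟩, rfl⟩
      show clm _ (red a) = red a
      rw [← h1 σ hσc σ' hfix σV hσV' hσ' a]
      congr 1
      rw [hφ] at ha
      exact div_eq_one.1 ha
    · rintro a ⟨ha, -⟩ b ⟨hb, -⟩ hab
      have := h3 (a / b) (div_mem ha hb) (by rw [map_div, hab, div_self'])
      exact div_eq_one.1 this
  have hpp : cl (pp (fun i => (c i : W)) i) ∈ primPart π := by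
    refine ⟨1, ?_⟩
    rw [Function.iterate_one, hπ, pi1_ap, clm_pp, div_self']
  obtain ⟨B, hB, hB'⟩ := deviss π φ hcomm (pi1_surjective hz) hker hinv _ hpp
  refine ⟨B, hB, ?_⟩
  rw [hφ] at hB'
  rw [← hB', mul_div_cancel]

end

end Pool.Agent.SB
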