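import Mathlib

set_option autoImplicit false

/-!
# PROJECT SB, block N: pure algebra of N23 (proved)

`A` an abelian group, `π` a surjective endomorphism with finite kernel, `φ` an endomorphism
commuting with `π` with finitely many fixed ... elements in the kernel on the `π`-primary part `X`.
Then `φ` is surjective on `X`.
-/

namespace Pool.Agent.SB

variable {A : Type*} [CommGroup A]

/-- the `π`-primary part -/
def primPart (π : A →* A) : Subgroup A where
  carrier := {a | ∃ n : ℕ, (⇑π)^[n] a = 1}
  one_mem' := ⟨0, rfl⟩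
  mul_mem' := by
    rintro a b ⟨n, hn⟩ ⟨m, hm⟩
    refine ⟨n + m, ?_⟩
    rw [iterate_map_mul, Function.iterate_add_apply, Function.iterate_add_apply, hm,
      iterate_map_one, mul_one, ← Function.iterate_add_apply, add_comm,
      Function.iterate_add_apply, hn, iterate_map_one]
  inv_mem' := by
    rintro a ⟨n, hn⟩
    exact ⟨n, by rw [iterate_map_inv, hn, inv_one]⟩

theorem mem_primPart {π : A →* A} {a : A} : a ∈ primPart π ↔ ∃ n : ℕ, (⇑π)^[n] a = 1 := Iff.rfl

theorem finite_layer {π : A →* A} (hker : Set.Finite {a | π a = 1}) (n : ℕ) :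
    Set.Finite {a : A | (⇑π)^[n] a = 1} := by
  induction n with
  | zero => exact (Set.finite_singleton (1 : A)).subset fun a ha => ha
  | succ n ih =>
    have h1 : {a : A | (⇑π)^[n + 1] a = 1} = π ⁻¹' {a : A | (⇑π)^[n] a = 1} := by
      ext a
      rw [Set.mem_preimage, Set.mem_setOf_eq, Set.mem_setOf_eq, Function.iterate_succ_apply]
    rw [h1]
    refine ih.preimage' fun b _ => ?_
    by_cases hb : ∃ a, π a = b
    · obtain ⟨a, rfl⟩ := hb
      refine (hker.image fun c => a * c).subset ?_
      intro c hc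
      refine ⟨a⁻¹ * c, ?_, by group⟩
      show π (a⁻¹ * c) = 1
      rw [map_mul, map_inv, show π c = π a from hc, inv_mul_cancel]
    · refine Set.finite_empty.subset ?_
      intro c hc
      exact hb ⟨c, hc⟩

theorem primPart_map {π φ : A →* A} (hc : ∀ a, π (φ a) = φ (π a)) {a : A}
    (ha : a ∈ primPart π) : φ a ∈ primPart π := by
  obtain ⟨n, hn⟩ := ha
  refine ⟨n, ?_⟩
  have h : Function.Commute (⇑π) (⇑φ) := hc
  have h2 := (h.iterate_left n) a
  rw [h2, hn, map_one]

theorem deviss (π φ : A →* A) (hc : ∀ a, π (φ a) = φ (π a)) (hπ : Function.Surjective π)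
    (hker : Set.Finite {a | π a = 1})
    (hφ : Set.Finite {a | a ∈ primPart π ∧ φ a = 1}) (a : A) (ha : a ∈ primPart π) :
    ∃ b ∈ primPart π, φ b = a := by
  classical
  -- restrictions to `X`
  let X := primPart π
  let πX : X →* X := (π.comp X.subtype).codRestrict X fun x =>
    primPart_map (π := π) (φ := π) (fun _ => rfl) x.2
  let φX : X →* X := (φ.comp X.subtype).codRestrict X fun x => primPart_map hc x.2
  have hπX : ∀ x : X, ((πX x : X) : A) = π x := fun _ => rfl
  have hφX : ∀ x : X, ((φX x : X) : A) = φ x := fun _ => rfl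
  have hsurj : Function.Surjective πX := by
    intro x
    obtain ⟨y, hy⟩ := hπ x
    obtain ⟨n, hn⟩ := x.2
    exact ⟨⟨y, n + 1, by rw [Function.iterate_succ_apply, hy, hn]⟩, Subtype.ext hy⟩
  let Q := X ⧸ φX.range
  -- the finite layers
  let L : ℕ → Subgroup X := fun n =>
    { carrier := {x | (⇑π)^[n] (x : A) = 1}
      one_mem' := iterate_map_one π n
      mul_mem' := fun {x y} hx hy => by
        show (⇑π)^[n] ((x : A) * y) = 1
        rw [iterate_map_mul, show (⇑π)^[n] (x : A) = 1 from hx,
          show (⇑π)^[n] (y : A) = 1 from hy, one_mul]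
      inv_mem' := fun {x} hx => by
        show (⇑π)^[n] ((x : A)⁻¹) = 1
        rw [iterate_map_inv, show (⇑π)^[n] (x : A) = 1 from hx, inv_one] }
  have hLmem : ∀ n (x : X), x ∈ L n ↔ (⇑π)^[n] (x : A) = 1 := fun _ _ => Iff.rfl
  have hLfin : ∀ n, Finite (L n) := by
    intro n
    have h1 := finite_layer (π := π) hker n
    have h2 : Finite {a : A | (⇑π)^[n] a = 1} := h1
    refine Finite.of_injective
      (fun x : L n => (⟨((x : X) : A), x.2⟩ : {a : A | (⇑π)^[n] a = 1})) ?_
    intro x y hxy
    exact Subtype.ext (Subtype.ext (Subtype.mk.inj hxy))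
  -- cosets of a layer
  set K := hφ.toFinset.card with hK
  have hbound : ∀ n, ∀ t : Fin (K + 1) → L n,
      ∃ i j, i ≠ j ∧ ∃ z ∈ L n, φX z * (t j : X) = (t i : X) := by
    intro n t
    have := hLfin n
    let ψ : L n →* L n := (φX.comp (L n).subtype).codRestrict (L n) fun x => by
      show (⇑π)^[n] (φ ((x : X) : A)) = 1
      have h : Function.Commute (⇑π) (⇑φ) := hc
      rw [(h.iterate_left n) ((x : X) : A), show (⇑π)^[n] ((x : X) : A) = 1 from x.2, map_one]
    have hψ : ∀ x : L n, ((ψ x : L n) : X) = φX x := fun _ => rfl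
    have h1 : Nat.card (L n ⧸ ψ.range) * Nat.card ψ.range = Nat.card (L n) :=
      (Subgroup.card_eq_card_quotient_mul_card_subgroup _).symm
    have h2 : Nat.card (L n ⧸ ψ.ker) * Nat.card ψ.ker = Nat.card (L n) :=
      (Subgroup.card_eq_card_quotient_mul_card_subgroup _).symm
    have h3 : Nat.card (L n ⧸ ψ.ker) = Nat.card ψ.range :=
      Nat.card_congr (QuotientGroup.quotientKerEquivRange ψ).toEquiv
    have h4 : Nat.card (L n ⧸ ψ.range) = Nat.card ψ.ker := by
      have h5 : 0 < Nat.card ψ.range := Nat.card_pos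
      rw [h3, mul_comm, ← h1] at h2
      exact (Nat.eq_of_mul_eq_mul_right h5 (by rw [← h2, mul_comm])).symm
    have h5 : Nat.card ψ.ker ≤ K := by
      have hfin6 : Finite {a | a ∈ primPart π ∧ φ a = 1} := hφ
      rw [hK, ← Nat.card_eq_card_finite_toFinset hφ]
      refine Nat.card_le_card_of_injective
        (fun x : ψ.ker => (⟨(((x : L n) : X) : A), ((x : L n) : X).2, by
          have h6 : ψ x = 1 := x.2
          have h7 := congrArg (fun y : L n => ((y : X) : A)) h6
          exact h7⟩ : {a | a ∈ primPart π ∧ φ a = 1})) ?_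
      intro x y hxy
      exact Subtype.ext (Subtype.ext (Subtype.ext (Subtype.mk.inj hxy)))
    have h6 : ¬ Function.Injective (fun i => (QuotientGroup.mk (t i) : L n ⧸ ψ.range)) := by
      intro hinj
      have h7 := Nat.card_le_card_of_injective _ hinj
      rw [Nat.card_fin, h4] at h7
      omega
    rw [Function.Injective] at h6
    push Not at h6
    obtain ⟨i, j, hij, hne⟩ := h6
    refine ⟨i, j, hne, ?_⟩
    rw [QuotientGroup.eq] at hij
    obtain ⟨z, hz⟩ := hij
    refine ⟨((z⁻¹ : L n) : X), (z⁻¹ : L n).2, ?_⟩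
    have h8 : ((ψ z : L n) : X) = (t i : X)⁻¹ * (t j : X) := congrArg Subtype.val hz
    rw [hψ] at h8
    rw [Subgroup.coe_inv, map_inv, h8, mul_inv_rev, inv_inv, mul_comm (t j : X)⁻¹, mul_assoc,
      inv_mul_cancel, mul_one]
  have hQfin : Finite Q := by
    by_contra hinf
    rw [not_finite_iff_infinite] at hinf
    let e := Infinite.natEmbedding Q
    choose r hr using fun i : Fin (K + 1) => QuotientGroup.mk_surjective (e (i : ℕ))
    choose m hm using fun i : Fin (K + 1) => (r i).2
    have hall : ∃ n, ∀ i, r i ∈ L n := by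
      refine ⟨∑ i, m i, fun i => ?_⟩
      rw [hLmem]
      have h1 : ∑ i, m i = (∑ i, m i - m i) + m i :=
        (Nat.sub_add_cancel (Finset.single_le_sum (fun _ _ => Nat.zero_le _)
          (Finset.mem_univ i))).symm
      rw [h1, Function.iterate_add_apply, hm, iterate_map_one]
    obtain ⟨n, hn⟩ := hall
    obtain ⟨i, j, hij, z, -, hz⟩ := hbound n (fun i => ⟨r i, hn i⟩)
    apply hij
    have h1 : (QuotientGroup.mk (r i) : Q) = QuotientGroup.mk (r j) := by
      rw [QuotientGroup.eq]
      refine ⟨z⁻¹, ?_⟩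
      have hz' : φX z * r j = r i := hz
      rw [map_inv, ← hz']
      rw [mul_inv_rev, mul_comm (r j)⁻¹, mul_assoc, inv_mul_cancel, mul_one]
    rw [hr, hr] at h1
    exact Fin.ext (e.injective h1)
  -- `π` on the quotient
  have hle : φX.range ≤ φX.range.comap πX := by
    rintro _ ⟨z, rfl⟩
    exact ⟨πX z, Subtype.ext (hc z).symm⟩
  let πQ : Q →* Q := QuotientGroup.map _ _ πX hle
  have hQsurj : Function.Surjective πQ := by
    intro y
    obtain ⟨y, rfl⟩ := QuotientGroup.mk_surjective y
    obtain ⟨x, rfl⟩ := hsurj y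
    exact ⟨QuotientGroup.mk x, rfl⟩
  have hQinj : Function.Injective πQ := Finite.injective_iff_surjective.2 hQsurj
  have hiter : ∀ (n : ℕ) (x : X), (⇑πQ)^[n] (QuotientGroup.mk x) =
      QuotientGroup.mk ((⇑πX)^[n] x) := by
    intro n
    induction n with
    | zero => intro x; rfl
    | succ n ih =>
      intro x
      rw [Function.iterate_succ_apply, Function.iterate_succ_apply]
      exact ih (πX x)
  have hiterA : ∀ (n : ℕ) (x : X), (((⇑πX)^[n] x : X) : A) = (⇑π)^[n] (x : A) := by
    intro n
    induction n with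
    | zero => intro x; rfl
    | succ n ih =>
      intro x
      rw [Function.iterate_succ_apply, Function.iterate_succ_apply, ih, hπX]
  obtain ⟨n, hn⟩ := ha
  have h1 : (QuotientGroup.mk (⟨a, n, hn⟩ : X) : Q) = 1 := by
    apply hQinj.iterate n
    rw [hiter, iterate_map_one]
    have h2 : (⇑πX)^[n] (⟨a, n, hn⟩ : X) = 1 := by
      apply Subtype.ext
      rw [hiterA]
      exact hn
    rw [h2]
    rfl
  rw [QuotientGroup.eq_one_iff] at h1
  obtain ⟨b, hb⟩ := h1
  exact ⟨b, b.2, congrArg Subtype.val hb⟩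

end Pool.Agent.SB
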