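import Pool.Agent.Helper12.SN.Ded
import Pool.Agent.Helper6.SE.All

set_option autoImplicit false

/-!
# PROJECT SB, block N, part D: evaluation at the generic point (SB-N-D01)

Proofs.  `evW_injective`: `x` is transcendental over `kbar` (`kbar/k` algebraic); the kernel `P` of
`evW` is prime, `P ∩ f[X] = 0`, `RR ℓ c` is integral over `f[X]` (`isIntegral_RR`), so `P = 0`
(`Ideal.eq_bot_of_comap_eq_bot`).
`evW_range`: `⊆`: the constants are integral over `k`, `u_j ^ ℓ` is a polynomial in `x` with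
coefficients in `kbar` (`IsIntegral.of_pow`), everything is in `EW k x y`.  `⊇`: the quotients
`evW a / evW b` form a subfield of `Ω` containing `kbar`, `x`, `y` (`y = evW (uu 1) / (x - c 1)`; for
`ℓ` prime `(1 : ZMod ℓ) ≠ 0`), so it contains `EW k x y`; an element of `EW k x y` integral over
`k[x]` is `evW a / evW b` integral over the range of `evW`, so in the range because `RR ℓ c` is
integrally closed (`isIntegrallyClosed_RR`; transport the equation of integral dependence to
`FractionRing (RR ℓ c)`).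
-/

open Polynomial IntermediateField

namespace Pool.Agent.SB

open Pool.Agent.Helper12.SN

variable {k : Type} [Field k] [CharZero k] {Ω : Type} [Field Ω] [Algebra k Ω] [IsAlgClosed Ω]
  {ℓ : ℕ} [Fact ℓ.Prime] (c : Fin 3 → kbar k Ω)

/-- evaluation at the point `(x, y)` of `Ω` -/
noncomputable def evW (x y : Ω)
    (h : y ^ ℓ * (x - (c 1 : Ω)) = (x - (c 0 : Ω)) * (x - (c 2 : Ω))) : RR ℓ c →+* Ω :=
  ev (algebraMap (kbar k Ω) Ω) x y h

variable {c} {x y : Ω} (h : y ^ ℓ * (x - (c 1 : Ω)) = (x - (c 0 : Ω)) * (x - (c 2 : Ω)))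

theorem evW_ap (r : RR ℓ c) :
    evW c x y h r = ∑ j : ZMod ℓ, (r j).eval₂ (algebraMap (kbar k Ω) Ω) x *
      uval (algebraMap (kbar k Ω) Ω) c x y j := rfl

theorem evW_algebraMap (p : (kbar k Ω)[X]) :
    evW c x y h (algebraMap (kbar k Ω)[X] (RR ℓ c) p) =
      p.eval₂ (algebraMap (kbar k Ω) Ω) x := by
  rw [evW_ap, Finset.sum_eq_single (0 : ZMod ℓ)]
  · rw [algebraMap_ap, if_pos rfl]
    unfold uval
    rw [if_pos rfl, mul_one]
  · intro j _ hj
    rw [algebraMap_ap, if_neg hj, eval₂_zero, zero_mul]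
  · intro hn
    exact absurd (Finset.mem_univ _) hn

theorem evW_con (a : kbar k Ω) : evW c x y h (con a) = (a : Ω) := by
  have h1 : (con a : RR ℓ c) = algebraMap (kbar k Ω)[X] (RR ℓ c) (C a) := rfl
  rw [h1, evW_algebraMap, eval₂_C]
  rfl

theorem evW_uu_one : evW c x y h (uu 1) = (x - (c 1 : Ω)) * y := by
  have hp : ℓ.Prime := Fact.out
  have : Fact (1 < ℓ) := ⟨hp.one_lt⟩
  rw [evW_ap, Finset.sum_eq_single (1 : ZMod ℓ)]
  · rw [uu_ap, if_pos rfl, eval₂_one, one_mul]
    unfold uval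
    rw [if_neg one_ne_zero, ZMod.val_one, pow_one]
    rfl
  · intro j _ hj
    rw [uu_ap, if_neg hj, eval₂_zero, zero_mul]
  · intro hn
    exact absurd (Finset.mem_univ _) hn

omit [CharZero k] [IsAlgClosed Ω] in
private theorem evW_trans (hx : Transcendental k x) {p : (kbar k Ω)[X]}
    (hp : p.eval₂ (algebraMap (kbar k Ω) Ω) x = 0) : p = 0 := by
  by_contra hne
  apply hx
  have h1 : IsAlgebraic (kbar k Ω) x := ⟨p, hne, hp⟩
  have : Algebra.IsAlgebraic k (kbar k Ω) := inferInstance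
  exact IsAlgebraic.restrictScalars k h1

theorem evW_injective (hx : Transcendental k x) : Function.Injective (evW c x y h) := by
  rw [RingHom.injective_iff_ker_eq_bot]
  refine Ideal.eq_bot_of_comap_eq_bot (R := (kbar k Ω)[X]) ?_
  rw [eq_bot_iff]
  intro p hp
  have h1 : evW c x y h (algebraMap (kbar k Ω)[X] (RR ℓ c) p) = 0 := hp
  rw [evW_algebraMap] at h1
  rw [Ideal.mem_bot]
  exact evW_trans hx h1

omit [CharZero k] [IsAlgClosed Ω] in
private theorem con_mem_OW (x y : Ω) (a : kbar k Ω) : (a : Ω) ∈ OW k x y := by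
  refine ⟨IntermediateField.subset_adjoin k _ (Or.inl ⟨a, rfl⟩), ?_⟩
  have h1 : IsIntegral k (a : Ω) := mem_algebraicClosure_iff'.1 a.2
  exact h1.tower_top

omit [CharZero k] [IsAlgClosed Ω] in
private theorem x_mem_OW (x y : Ω) : x ∈ OW k x y := by
  refine ⟨IntermediateField.subset_adjoin k _ (Or.inr (by simp)), ?_⟩
  exact isIntegral_algebraMap (R := Algebra.adjoin k ({x} : Set Ω))
    (x := ⟨x, Algebra.self_mem_adjoin_singleton k x⟩)

omit [CharZero k] [IsAlgClosed Ω] in
private theorem eval_mem_OW (x y : Ω) (p : (kbar k Ω)[X]) :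
    p.eval₂ (algebraMap (kbar k Ω) Ω) x ∈ OW k x y := by
  rw [eval₂_eq_sum_range]
  exact Subalgebra.sum_mem _ fun i _ =>
    Subalgebra.mul_mem _ (con_mem_OW x y _) (Subalgebra.pow_mem _ (x_mem_OW x y) _)

omit [CharZero k] [IsAlgClosed Ω] in
private theorem uval_mem_OW
    (h : y ^ ℓ * (x - (c 1 : Ω)) = (x - (c 0 : Ω)) * (x - (c 2 : Ω))) (j : ZMod ℓ) :
    uval (algebraMap (kbar k Ω) Ω) c x y j ∈ OW k x y := by
  have hp : ℓ.Prime := Fact.out
  unfold uval
  split_ifs with hj
  · exact Subalgebra.one_mem _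
  · have hy : y ∈ EW k x y := IntermediateField.subset_adjoin k _ (Or.inr (by simp))
    have hxc : ∀ i, x - (c i : Ω) ∈ OW k x y := fun i =>
      Subalgebra.sub_mem _ (x_mem_OW x y) (con_mem_OW x y _)
    refine ⟨mul_mem (hxc 1).1 (pow_mem hy _), ?_⟩
    refine IsIntegral.of_pow hp.pos ?_
    have hlt := (ZMod.val_lt j).le
    have h1 : ((x - (algebraMap (kbar k Ω) Ω) (c 1)) * y ^ j.val) ^ ℓ =
        (x - (c 1 : Ω)) ^ (ℓ - j.val) * ((x - (c 0 : Ω)) * (x - (c 2 : Ω))) ^ j.val := by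
      have h2 : (x - (c 1 : Ω)) ^ ℓ = (x - (c 1 : Ω)) ^ (ℓ - j.val) * (x - (c 1 : Ω)) ^ j.val := by
        rw [← pow_add, Nat.sub_add_cancel hlt]
      change ((x - (c 1 : Ω)) * y ^ j.val) ^ ℓ = _
      rw [mul_pow, h2, ← h, mul_pow, ← pow_mul, ← pow_mul, mul_comm j.val ℓ]
      ring
    rw [h1]
    exact (Subalgebra.mul_mem _ (Subalgebra.pow_mem _ (hxc 1) _)
      (Subalgebra.pow_mem _ (Subalgebra.mul_mem _ (hxc 0) (hxc 2)) _)).2

theorem evW_range [Good ℓ c] (hx : Transcendental k x) :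
    Set.range (evW c x y h) = {z : Ω | z ∈ OW k x y} := by
  classical
  apply Set.Subset.antisymm
  · rintro _ ⟨r, rfl⟩
    change evW c x y h r ∈ OW k x y
    rw [evW_ap]
    exact Subalgebra.sum_mem _ fun j _ =>
      Subalgebra.mul_mem _ (eval_mem_OW x y _) (uval_mem_OW h j)
  · rintro z ⟨hz1, hz2⟩
    have hinj := evW_injective h hx
    let Q := FractionRing (RR ℓ c)
    let Φ : Q →+* Ω := IsFractionRing.lift hinj
    have hΦ : ∀ r : RR ℓ c, Φ (algebraMap (RR ℓ c) Q r) = evW c x y h r := fun r =>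
      IsFractionRing.lift_algebraMap hinj r
    -- the field of fractions contains `EW`
    have hcon : ∀ a : kbar k Ω, (a : Ω) ∈ Φ.fieldRange := fun a =>
      ⟨algebraMap (RR ℓ c) Q (con a), by rw [hΦ, evW_con]⟩
    have hxx : x ∈ Φ.fieldRange :=
      ⟨algebraMap (RR ℓ c) Q (algebraMap (kbar k Ω)[X] (RR ℓ c) X), by
        rw [hΦ, evW_algebraMap, eval₂_X]⟩
    have hx1 : x - (c 1 : Ω) ≠ 0 := by
      intro h0
      apply hx
      rw [sub_eq_zero.1 h0]
      exact (mem_algebraicClosure_iff'.1 (c 1).2 : IsIntegral k (c 1 : Ω)).isAlgebraic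
    have hyy : y ∈ Φ.fieldRange := by
      have h1 : (x - (c 1 : Ω)) * y ∈ Φ.fieldRange :=
        ⟨algebraMap (RR ℓ c) Q (uu 1), by rw [hΦ, evW_uu_one]⟩
      have h2 : x - (c 1 : Ω) ∈ Φ.fieldRange := sub_mem hxx (hcon _)
      have h3 := mul_mem (inv_mem h2) h1
      rwa [inv_mul_cancel_left₀ hx1] at h3
    have hle : EW k x y ≤ Subfield.toIntermediateField Φ.fieldRange
        (fun r => hcon (algebraMap k (kbar k Ω) r)) := by
      unfold EW
      rw [IntermediateField.adjoin_le_iff]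
      rintro w (⟨a, rfl⟩ | hw)
      · exact hcon a
      · rcases hw with rfl | hw
        · exact hxx
        · rw [Set.mem_singleton_iff.1 hw]
          exact hyy
    obtain ⟨w, hw⟩ : z ∈ Φ.fieldRange := hle hz1
    -- the ring `k[x]` is inside the range
    have hrange : ∀ a : Algebra.adjoin k ({x} : Set Ω), (a : Ω) ∈ (evW c x y h).range := by
      rintro ⟨a, ha⟩
      have h1 : Algebra.adjoin k ({x} : Set Ω) ≤
          { (evW c x y h).range with
            algebraMap_mem' := fun r => ⟨con (algebraMap k (kbar k Ω) r), evW_con h _⟩ } := by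
        rw [Algebra.adjoin_le_iff]
        intro w hw
        rw [Set.mem_singleton_iff.1 hw]
        exact ⟨algebraMap (kbar k Ω)[X] (RR ℓ c) X, by rw [evW_algebraMap, eval₂_X]⟩
      exact h1 ha
    let E : RR ℓ c ≃+* (evW c x y h).range := RingEquiv.ofBijective (evW c x y h).rangeRestrict
      ⟨fun a b hab => hinj (congrArg Subtype.val hab), (evW c x y h).rangeRestrict_surjective⟩
    have hE : ∀ r, ((E r : (evW c x y h).range) : Ω) = evW c x y h r := fun _ => rfl
    let ι : Algebra.adjoin k ({x} : Set Ω) →+* (evW c x y h).range :=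
      { toFun := fun a => ⟨a, hrange a⟩
        map_one' := rfl
        map_mul' := fun _ _ => rfl
        map_zero' := rfl
        map_add' := fun _ _ => rfl }
    let ψ : Algebra.adjoin k ({x} : Set Ω) →+* RR ℓ c := E.symm.toRingHom.comp ι
    have hψ : ∀ a, evW c x y h (ψ a) = (a : Ω) := by
      intro a
      rw [← hE]
      change ((E (E.symm (ι a)) : (evW c x y h).range) : Ω) = (a : Ω)
      rw [RingEquiv.apply_symm_apply]
      rfl
    algebraize_only [(algebraMap (RR ℓ c) Q).comp ψ]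
    let f : Q →ₐ[Algebra.adjoin k ({x} : Set Ω)] Ω :=
      { Φ with
        commutes' := fun a => by
          change Φ (algebraMap (RR ℓ c) Q (ψ a)) = (a : Ω)
          rw [hΦ, hψ] }
    have hf : Function.Injective f := Φ.injective
    have hzf : IsIntegral (Algebra.adjoin k ({x} : Set Ω)) (f w) := by
      have h2 : f w = z := hw
      rw [h2]
      exact hz2
    have hw2 : IsIntegral (Algebra.adjoin k ({x} : Set Ω)) w := (isIntegral_algHom_iff f hf).1 hzf
    have hw3 : IsIntegral (RR ℓ c) w :=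
      IsIntegral.map_of_comp_eq ψ (RingHom.id Q) rfl hw2
    obtain ⟨r, hr⟩ := IsIntegrallyClosed.isIntegral_iff.1 hw3
    exact ⟨r, by rw [← hΦ, hr]; exact hw⟩

theorem exists_equiv_OW [Good ℓ c] (hx : Transcendental k x) :
    ∃ e : RR ℓ c ≃+* OW k x y, ∀ r, ((e r : OW k x y) : Ω) = evW c x y h r := by
  have hr := evW_range h hx
  have hmem : ∀ r, evW c x y h r ∈ OW k x y := fun r => by
    have h1 : evW c x y h r ∈ Set.range (evW c x y h) := ⟨r, rfl⟩
    rw [hr] at h1
    exact h1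
  let g : RR ℓ c →+* OW k x y :=
    { toFun := fun r => ⟨evW c x y h r, hmem r⟩
      map_one' := Subtype.ext (map_one _)
      map_mul' := fun _ _ => Subtype.ext (map_mul _ _ _)
      map_zero' := Subtype.ext (map_zero _)
      map_add' := fun _ _ => Subtype.ext (map_add _ _ _) }
  refine ⟨RingEquiv.ofBijective g ⟨fun a b hab => ?_, fun z => ?_⟩, fun r => rfl⟩
  · exact evW_injective h hx (congrArg Subtype.val hab)
  · have h1 : (z : Ω) ∈ {z : Ω | z ∈ OW k x y} := z.2
    rw [← hr] at h1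
    obtain ⟨r, hr⟩ := h1
    exact ⟨r, Subtype.ext hr⟩

end Pool.Agent.SB
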