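import Mathlib

set_option autoImplicit false

/-!
# PROJECT SB, block N, part C: finite descent

`f` is the algebraic closure of a finite field, `O` the ring of integral functions on an affine
curve over `f` with function field `E`, `Φ` the Frobenius of an `𝔽_q`-structure.  Goal: the ideal
classes of `O` fixed by `Φ` are finitely many.
-/

open Polynomial

namespace Pool.Agent.SB.FD

/-- the data: `x`, a basis `b` of `O` over `f[x]`, the leading coefficient `lc` at the place
at infinity, the Frobenius `Φ` -/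
structure Data (f E : Type) [Field f] [Field E] [Algebra f E] (O : Subalgebra f E) (q ℓ : ℕ) where
  /-- the coordinate -/
  x : E
  /-- the basis of `O` over `f[x]` -/
  b : Fin ℓ → E
  /-- the leading coefficient -/
  lc : E →*₀ f
  /-- the Frobenius -/
  Φ : E ≃+* E
  one_lt : 1 < q
  q_zero : (q : f) = 0
  fin : ∀ z : f, ∃ n : ℕ, 0 < n ∧ z ^ (q ^ n) = z
  mem : ∀ h : E, h ∈ O ↔ ∃ r : Fin ℓ → f[X], h = ∑ j, aeval x (r j) * b j
  indep : ∀ r : Fin ℓ → f[X], ∑ j, aeval x (r j) * b j = 0 → r = 0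
  frac : ∀ h : E, ∃ a ∈ O, ∃ d ∈ O, d ≠ 0 ∧ h = a / d
  intcl : ∀ h : E, IsIntegral O h → h ∈ O
  Φ_x : Φ x = x
  Φ_b : ∀ j, Φ (b j) = b j
  Φ_f : ∀ a : f, Φ (algebraMap f E a) = algebraMap f E (a ^ q)
  lc_const : ∀ a : f, lc (algebraMap f E a) = a
  lc_Φ : ∀ h : E, lc (Φ h) = lc h ^ q
  units : ∀ u : E, u ≠ 0 → u ∈ O → u⁻¹ ∈ O → ∃ a : f, u = algebraMap f E a

variable {f E : Type} [Field f] [Field E] [Algebra f E] {O : Subalgebra f E} {q ℓ : ℕ}

namespace Data

variable (D : Data f E O q ℓ)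

/-- the subring of `Φ`-fixed elements of `O` -/
def S : Subring E where
  carrier := {h | h ∈ O ∧ D.Φ h = h}
  mul_mem' := fun ha hb => ⟨mul_mem ha.1 hb.1, by rw [map_mul, ha.2, hb.2]⟩
  one_mem' := ⟨one_mem _, map_one _⟩
  add_mem' := fun ha hb => ⟨add_mem ha.1 hb.1, by rw [map_add, ha.2, hb.2]⟩
  zero_mem' := ⟨zero_mem _, map_zero _⟩
  neg_mem' := fun ha => ⟨neg_mem ha.1, by rw [map_neg, ha.2]⟩

theorem mem_S {h : E} : h ∈ D.S ↔ h ∈ O ∧ D.Φ h = h := Iff.rfl

/-- the subfield of elements with `z ^ q = z` -/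
def κ : Subfield f where
  carrier := {z | z ^ q = z}
  mul_mem' := fun {a b} ha hb => by
    show (a * b) ^ q = a * b
    rw [mul_pow, show a ^ q = a from ha, show b ^ q = b from hb]
  one_mem' := one_pow q
  add_mem' := fun {a b} ha hb => by
    have h : algebraMap f E ((a + b) ^ q) = algebraMap f E (a + b) := by
      rw [← D.Φ_f, map_add, map_add, D.Φ_f, D.Φ_f, show a ^ q = a from ha,
        show b ^ q = b from hb]
    exact (algebraMap f E).injective h
  zero_mem' := zero_pow (by have := D.one_lt; omega)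
  neg_mem' := fun {a} ha => by
    have h : algebraMap f E ((-a) ^ q) = algebraMap f E (-a) := by
      rw [← D.Φ_f, map_neg, map_neg, D.Φ_f, show a ^ q = a from ha]
    exact (algebraMap f E).injective h
  inv_mem' := fun a ha => by
    show (a⁻¹) ^ q = a⁻¹
    rw [inv_pow, show a ^ q = a from ha]

theorem mem_κ {z : f} : z ∈ D.κ ↔ z ^ q = z := Iff.rfl

/-- `Φ` carries the ideal `J` to `h J` (as subsets of `E`) -/
def Tw (J : Ideal O) (h : E) : Prop :=
  ∀ z : E, (∃ j ∈ J, D.Φ (j : E) = z) ↔ ∃ j ∈ J, h * (j : E) = z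

end Data

end Pool.Agent.SB.FD
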