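import Pool.Agent.Helper35.SN.Iter

set_option autoImplicit false

/-!
# PROJECT SB, block N, part C: the fixed ring is Dedekind with finite class group (SB-N-C03)

`S = O^Φ`.  `fixed_iff`: `h ∈ S` iff the coordinates `r j` have coefficients in `κ` (uniqueness of
the coordinates, `Φ_aeval`).  So `S` is free over `κ[X]` with basis `b`.  It is a domain, integral
over `κ[X]`, integrally closed: `z ∈ FractionRing S` integral over `S` is mapped into `E`
(`IsFractionRing.lift`), the image is integral over `O`, so in `O` by `intcl`, and fixed by `Φ`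
(quotient of fixed elements).  Noetherian: finite over `κ[X]`; dimension one: integral over the
PID `κ[X]` (`Ring.DimensionLEOne.isIntegralClosure`, or `isDedekindDomain` by
`IsIntegralClosure`).  `κ` is finite: `κ` = roots of `X ^ q - X`.  Finally
`ClassGroup.fintypeOfAdmissibleOfAlgebraic` with `Polynomial.cardPowDegreeIsAdmissible`.
-/

open Polynomial

namespace Pool.Agent.SB.FD

variable {f E : Type} [Field f] [Field E] [Algebra f E] {O : Subalgebra f E} {q ℓ : ℕ}

namespace Data

variable (D : Data f E O q ℓ)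

theorem finite_κ : Finite D.κ := by
  have h0 : (X ^ q - X : f[X]) ≠ 0 := FiniteField.X_pow_card_sub_X_ne_zero f D.one_lt
  have hs : ((D.κ : Set f)).Finite := by
    refine Set.Finite.subset ((X ^ q - X : f[X]).rootSet_finite f) ?_
    intro z hz
    have hz' : z ^ q = z := hz
    rw [mem_rootSet]
    refine ⟨h0, ?_⟩
    rw [map_sub, map_pow, aeval_X, hz', sub_self]
  exact hs.to_subtype

private theorem aeval_mem (r : f[X]) : aeval D.x r ∈ O := by
  obtain ⟨s, hs⟩ := (D.mem 1).mp (one_mem O)
  refine (D.mem _).mpr ⟨fun j => r * s j, ?_⟩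
  have e : ∀ j, aeval D.x (r * s j) * D.b j = aeval D.x r * (aeval D.x (s j) * D.b j) := by
    intro j
    rw [map_mul, mul_assoc]
  rw [Finset.sum_congr rfl fun j _ => e j, ← Finset.mul_sum, ← hs, mul_one]

private theorem map_fr (r : (D.κ)[X]) :
    (r.map (D.κ).subtype).map D.fr = r.map (D.κ).subtype := by
  rw [Polynomial.map_map]
  congr 1
  ext z
  exact z.2

private theorem aeval_fix (r : (D.κ)[X]) :
    D.Φ (aeval D.x (r.map (D.κ).subtype)) = aeval D.x (r.map (D.κ).subtype) := by
  rw [Φ_aeval, map_fr]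

private theorem b_mem (j : Fin ℓ) : D.b j ∈ O := by
  classical
  refine (D.mem _).mpr ⟨Pi.single j 1, ?_⟩
  rw [Finset.sum_eq_single j]
  · rw [Pi.single_eq_same, map_one, one_mul]
  · intro i _ hi
    rw [Pi.single_eq_of_ne hi, map_zero, zero_mul]
  · intro h
    exact absurd (Finset.mem_univ j) h

/-- `κ[X] → S` -/
noncomputable def toS : (D.κ)[X] →+* D.S where
  toFun r := ⟨aeval D.x (r.map (D.κ).subtype), by
    exact ⟨aeval_mem D _, aeval_fix D r⟩⟩
  map_one' := by
    apply Subtype.ext
    show aeval D.x (Polynomial.map (D.κ).subtype 1) = 1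
    rw [Polynomial.map_one, map_one]
  map_mul' := by
    intro a c
    apply Subtype.ext
    show aeval D.x (Polynomial.map (D.κ).subtype (a * c)) =
      aeval D.x (Polynomial.map (D.κ).subtype a) * aeval D.x (Polynomial.map (D.κ).subtype c)
    rw [Polynomial.map_mul, map_mul]
  map_zero' := by
    apply Subtype.ext
    show aeval D.x (Polynomial.map (D.κ).subtype 0) = 0
    rw [Polynomial.map_zero, map_zero]
  map_add' := by
    intro a c
    apply Subtype.ext
    show aeval D.x (Polynomial.map (D.κ).subtype (a + c)) =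
      aeval D.x (Polynomial.map (D.κ).subtype a) + aeval D.x (Polynomial.map (D.κ).subtype c)
    rw [Polynomial.map_add, map_add]

theorem coe_toS (r : (D.κ)[X]) : ((D.toS r : D.S) : E) = aeval D.x (r.map (D.κ).subtype) := rfl

private theorem Φ_sum' (r : Fin ℓ → f[X]) :
    D.Φ (∑ j, aeval D.x (r j) * D.b j) = ∑ j, aeval D.x ((r j).map D.fr) * D.b j := by
  rw [map_sum]
  refine Finset.sum_congr rfl fun j _ => ?_
  rw [map_mul, D.Φ_b, Φ_aeval]

theorem fixed_iff (h : E) : h ∈ D.S ↔ ∃ r : Fin ℓ → (D.κ)[X],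
    h = ∑ j, aeval D.x ((r j).map (D.κ).subtype) * D.b j := by
  constructor
  · rintro ⟨hO, hΦ⟩
    obtain ⟨r, rfl⟩ := (D.mem h).mp hO
    rw [Φ_sum'] at hΦ
    have h0 : (fun j => (r j).map D.fr - r j) = 0 := by
      apply D.indep
      have e : ∀ j, aeval D.x ((r j).map D.fr - r j) * D.b j =
          aeval D.x ((r j).map D.fr) * D.b j - aeval D.x (r j) * D.b j := by
        intro j
        rw [map_sub, sub_mul]
      rw [Finset.sum_congr rfl fun j _ => e j, Finset.sum_sub_distrib, hΦ, sub_self]
    have h1 : ∀ j, ∃ r' : (D.κ)[X], r'.map (D.κ).subtype = r j := by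
      intro j
      have h2 : (r j).map D.fr = r j := sub_eq_zero.mp (congrFun h0 j)
      have h3 : r j ∈ Polynomial.lifts (D.κ).subtype := by
        rw [Polynomial.lifts_iff_coeff_lifts]
        intro n
        have h4 : (r j).coeff n ^ q = (r j).coeff n := by
          have h5 := congrArg (fun p => Polynomial.coeff p n) h2
          rw [Polynomial.coeff_map] at h5
          exact h5
        exact ⟨⟨(r j).coeff n, h4⟩, rfl⟩
      exact (Polynomial.mem_lifts _).mp h3
    choose r' hr' using h1
    exact ⟨r', Finset.sum_congr rfl fun j _ => by rw [hr']⟩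
  · rintro ⟨r, rfl⟩
    refine ⟨(D.mem _).mpr ⟨fun j => (r j).map (D.κ).subtype, rfl⟩, ?_⟩
    rw [Φ_sum']
    exact Finset.sum_congr rfl fun j _ => by rw [map_fr]

private theorem coe_sum (r : Fin ℓ → (D.κ)[X]) :
    letI := D.toS.toAlgebra
    ((∑ j, r j • (⟨D.b j, b_mem D j, D.Φ_b j⟩ : D.S) : D.S) : E) =
      ∑ j, aeval D.x ((r j).map (D.κ).subtype) * D.b j := by
  letI := D.toS.toAlgebra
  rw [AddSubmonoidClass.coe_finset_sum]
  rfl

theorem exists_basis : letI := D.toS.toAlgebra; Nonempty (Module.Basis (Fin ℓ) (D.κ)[X] D.S) := by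
  letI := D.toS.toAlgebra
  refine ⟨Module.Basis.mk (v := fun j => (⟨D.b j, b_mem D j, D.Φ_b j⟩ : D.S)) ?_ ?_⟩
  · rw [Fintype.linearIndependent_iff]
    intro r hr j
    have h1 := coe_sum D r
    rw [hr] at h1
    have h2 := D.indep _ h1.symm
    have h3 : (r j).map (D.κ).subtype = 0 := congrFun h2 j
    exact (Polynomial.map_eq_zero _).mp h3
  · rintro ⟨s, hs⟩ _
    obtain ⟨r, hr⟩ := (fixed_iff D s).mp hs
    have e : (⟨s, hs⟩ : D.S) = ∑ j, r j • (⟨D.b j, b_mem D j, D.Φ_b j⟩ : D.S) := by
      apply Subtype.ext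
      rw [coe_sum D r]
      exact hr
    rw [e]
    exact Submodule.sum_mem _ fun j _ =>
      Submodule.smul_mem _ _ (Submodule.subset_span ⟨j, rfl⟩)

private theorem intClosed : IsIntegrallyClosed D.S := by
  rw [isIntegrallyClosed_iff (FractionRing D.S)]
  intro z hz
  have hinj : Function.Injective (algebraMap D.S E) := fun a c h => Subtype.ext h
  let ψ : FractionRing D.S →+* E := IsFractionRing.lift hinj
  have hψ : ∀ a : D.S, ψ (algebraMap D.S (FractionRing D.S) a) = (a : E) := fun a =>
    IsFractionRing.lift_algebraMap hinj a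
  let φ : D.S →+* O :=
    { toFun := fun a => ⟨(a : E), a.2.1⟩
      map_one' := rfl
      map_mul' := fun _ _ => rfl
      map_zero' := rfl
      map_add' := fun _ _ => rfl }
  have hi : IsIntegral O (ψ z) := by
    refine IsIntegral.map_of_comp_eq φ ψ ?_ hz
    ext a
    rw [RingHom.comp_apply, RingHom.comp_apply, hψ]
    rfl
  have hO : ψ z ∈ O := D.intcl _ hi
  obtain ⟨a, d, hd, hz'⟩ := IsFractionRing.div_surjective (A := D.S) z
  have hfix : D.Φ (ψ z) = ψ z := by
    rw [← hz', map_div₀, hψ, hψ, map_div₀, a.2.2, d.2.2]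
  refine ⟨⟨ψ z, hO, hfix⟩, ?_⟩
  apply ψ.injective
  rw [hψ]

theorem dedekind_S : IsDedekindDomain D.S := by
  letI := D.toS.toAlgebra
  obtain ⟨B⟩ := exists_basis D
  haveI hfin : Module.Finite (D.κ)[X] D.S := Module.Finite.of_basis B
  haveI hint : Algebra.IsIntegral (D.κ)[X] D.S := Algebra.IsIntegral.of_finite _ _
  haveI : IsNoetherianRing D.S := IsNoetherianRing.of_finite (D.κ)[X] D.S
  haveI : Ring.DimensionLEOne D.S := Ring.DimensionLEOne.of_isIntegral (D.κ)[X] D.S
  haveI : IsIntegrallyClosed D.S := intClosed D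
  haveI : IsDedekindRing D.S := {}
  exact {}

theorem finite_classGroup_S : letI := D.dedekind_S; Finite (ClassGroup D.S) := by
  classical
  letI := D.toS.toAlgebra
  haveI := D.dedekind_S
  haveI := D.finite_κ
  letI := Fintype.ofFinite D.κ
  obtain ⟨B⟩ := exists_basis D
  haveI hfin : Module.Finite (D.κ)[X] D.S := Module.Finite.of_basis B
  haveI hint : Algebra.IsIntegral (D.κ)[X] D.S := Algebra.IsIntegral.of_finite _ _
  letI := ClassGroup.fintypeOfAdmissibleOfAlgebraic B
    (Polynomial.cardPowDegreeIsAdmissible (Fq := D.κ))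
  exact Finite.of_fintype _

end Data

end Pool.Agent.SB.FD
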