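import Pool.Agent.Helper35.SN.Twist
import Pool.Agent.Helper35.SN.FixBasis

set_option autoImplicit false

/-!
# PROJECT SB, block N, part C: finitely many Frobenius-invariant classes (SB-N-C06)

`exists_stable` + `stable_map`: the class of `J` is the image of a class of `S` under
`ClassGroup.extendedHom` / `Ideal.map D.inc`; `finite_classGroup_S`.
-/

open Polynomial
open scoped nonZeroDivisors

namespace Pool.Agent.SB.FD

variable {f E : Type} [Field f] [IsAlgClosed f] [Field E] [Algebra f E] {O : Subalgebra f E}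
  {q ℓ : ℕ}

namespace Data

variable (D : Data f E O q ℓ)

omit [IsAlgClosed f] in
private theorem fm_inc_inj : Function.Injective D.inc := by
  intro a b h
  exact Subtype.ext (congrArg (fun z : O => (z : E)) h)

private theorem fm_mem (I : (Ideal D.S)⁰) [IsDedekindDomain O] :
    (I : Ideal D.S).map D.inc ∈ (Ideal O)⁰ := by
  rw [mem_nonZeroDivisors_iff_ne_zero]
  intro h
  have h1 : (I : Ideal D.S) ≠ 0 := nonZeroDivisors.coe_ne_zero I
  apply h1
  rw [Submodule.zero_eq_bot] at h ⊢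
  exact (Ideal.map_eq_bot_iff_of_injective (fm_inc_inj D)).1 h

theorem finite_fixed [IsDedekindDomain O] :
    Set.Finite {a : ClassGroup O | ∃ (J : (Ideal O)⁰) (h : E), ClassGroup.mk0 J = a ∧ h ≠ 0 ∧
      D.Tw (J : Ideal O) h} := by
  have hS : IsDedekindDomain D.S := D.dedekind_S
  have hfin : Finite (ClassGroup D.S) := D.finite_classGroup_S
  let F : (Ideal D.S)⁰ → ClassGroup O := fun I => ClassGroup.mk0 ⟨_, fm_mem D I⟩
  have hF : ∀ I I' : (Ideal D.S)⁰, ClassGroup.mk0 I = ClassGroup.mk0 I' → F I = F I' := by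
    intro I I' h
    obtain ⟨x, y, hx, hy, hxy⟩ := ClassGroup.mk0_eq_mk0_iff.1 h
    refine ClassGroup.mk0_eq_mk0_iff.2 ⟨D.inc x, D.inc y, ?_, ?_, ?_⟩
    · rw [Ne, map_eq_zero_iff _ (fm_inc_inj D)]
      exact hx
    · rw [Ne, map_eq_zero_iff _ (fm_inc_inj D)]
      exact hy
    · have h1 := congrArg (Ideal.map D.inc) hxy
      rw [Ideal.map_mul, Ideal.map_mul, Ideal.map_span, Ideal.map_span, Set.image_singleton,
        Set.image_singleton] at h1
      exact h1
  choose rep hrep using (ClassGroup.mk0_surjective (R := D.S))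
  refine (Set.finite_range (fun c => F (rep c))).subset ?_
  rintro a ⟨J, h, rfl, h0, hTw⟩
  have hJ : (J : Ideal O) ≠ ⊥ := nonZeroDivisors.coe_ne_zero J
  obtain ⟨J', hJ', hst, b, hb, hbJ⟩ := D.exists_stable (J : Ideal O) hJ h h0 hTw
  have h1 := D.stable_map J' hst
  have hI : J'.comap D.inc ∈ (Ideal D.S)⁰ := by
    rw [mem_nonZeroDivisors_iff_ne_zero]
    intro h2
    rw [h2, Submodule.zero_eq_bot, Ideal.map_bot] at h1
    exact hJ' h1.symm
  refine ⟨ClassGroup.mk0 ⟨_, hI⟩, ?_⟩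
  have h2 : F (rep (ClassGroup.mk0 ⟨_, hI⟩)) = F ⟨_, hI⟩ := hF _ _ (hrep _)
  refine h2.trans ?_
  refine ClassGroup.mk0_eq_mk0_iff.2 ⟨1, b, one_ne_zero, hb, ?_⟩
  change Ideal.span {1} * (J'.comap D.inc).map D.inc = Ideal.span {b} * (J : Ideal O)
  rw [h1, ← hbJ, Ideal.span_singleton_one, Ideal.top_mul]

end Data

end Pool.Agent.SB.FD
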