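import Pool.Agent.Helper35.SN.FDDefs

set_option autoImplicit false

/-!
# PROJECT SB, block N, part C: iterates of the Frobenius (SB-N-C02)

Proof of `exists_iter`.  Write `h = ∑ aeval x (r j) * b j`; the coefficients of the `r j` are
finitely many, and `z ^ (q ^ n) = z`, `n ∣ m` imply `z ^ (q ^ m) = z`, so some `n > 0` works for all
of them; `Φ^[n]` maps `aeval x r` to `aeval x r'`, the coefficients of `r'` being the `q ^ n`-th
powers of those of `r`.  For a general `h : E` write `h = a / d`.  `exists_iter_finset`: the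
product of the numbers `n`.
-/

open Polynomial

namespace Pool.Agent.SB.FD

variable {f E : Type} [Field f] [Field E] [Algebra f E] {O : Subalgebra f E} {q ℓ : ℕ}

namespace Data

variable (D : Data f E O q ℓ)

/-- `a ↦ a ^ q` as a ring homomorphism -/
def fr : f →+* f where
  toFun a := a ^ q
  map_one' := one_pow q
  map_mul' a b := mul_pow a b q
  map_zero' := zero_pow (by have := D.one_lt; omega)
  map_add' a b := (algebraMap f E).injective (by
    rw [← D.Φ_f, map_add, map_add, D.Φ_f, D.Φ_f, ← map_add])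

@[simp] theorem fr_apply (a : f) : D.fr a = a ^ q := rfl

theorem Φ_aeval (r : f[X]) : D.Φ (aeval D.x r) = aeval D.x (r.map D.fr) := by
  induction r using Polynomial.induction_on' with
  | add p q hp hq => rw [map_add, map_add, hp, hq, Polynomial.map_add, map_add]
  | monomial n a =>
    rw [Polynomial.map_monomial, aeval_monomial, aeval_monomial, map_mul, map_pow, D.Φ_x, D.Φ_f,
      fr_apply]

private theorem Φ_sum (r : Fin ℓ → f[X]) :
    D.Φ (∑ j, aeval D.x (r j) * D.b j) = ∑ j, aeval D.x ((r j).map D.fr) * D.b j := by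
  rw [map_sum]
  refine Finset.sum_congr rfl fun j _ => ?_
  rw [map_mul, D.Φ_b, Φ_aeval]

theorem Φ_mem {h : E} (hh : h ∈ O) : D.Φ h ∈ O := by
  obtain ⟨r, rfl⟩ := (D.mem h).mp hh
  exact (D.mem _).mpr ⟨fun j => (r j).map D.fr, Φ_sum D r⟩

private theorem fr_surj : Function.Surjective D.fr := by
  intro z
  obtain ⟨n, hn, hz⟩ := D.fin z
  refine ⟨z ^ (q ^ (n - 1)), ?_⟩
  rw [fr_apply, ← pow_mul, ← pow_succ, Nat.sub_add_cancel hn, hz]

theorem Φ_symm_mem {h : E} (hh : h ∈ O) : D.Φ.symm h ∈ O := by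
  obtain ⟨r, hr⟩ := (D.mem h).mp hh
  have hs : ∀ j, ∃ r' : f[X], r'.map D.fr = r j := fun j =>
    Polynomial.map_surjective D.fr (fr_surj D) (r j)
  choose r' hr' using hs
  have e : D.Φ (∑ j, aeval D.x (r' j) * D.b j) = h := by
    rw [Φ_sum, hr]
    exact Finset.sum_congr rfl fun j _ => by rw [hr']
  rw [← e, RingEquiv.symm_apply_apply]
  exact (D.mem _).mpr ⟨r', rfl⟩

theorem Φ_iter_f (n : ℕ) (a : f) :
    (⇑D.Φ)^[n] (algebraMap f E a) = algebraMap f E (a ^ (q ^ n)) := by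
  induction n with
  | zero => rw [Function.iterate_zero, id, pow_zero, pow_one]
  | succ n ih => rw [Function.iterate_succ_apply', ih, D.Φ_f, ← pow_mul, ← pow_succ]

theorem lc_iter (n : ℕ) (h : E) : D.lc ((⇑D.Φ)^[n] h) = D.lc h ^ (q ^ n) := by
  induction n with
  | zero => rw [Function.iterate_zero, id, pow_zero, pow_one]
  | succ n ih => rw [Function.iterate_succ_apply', D.lc_Φ, ih, ← pow_mul, ← pow_succ]

theorem iter_mul (n m : ℕ) (h : E) (hh : (⇑D.Φ)^[n] h = h) : (⇑D.Φ)^[n * m] h = h := by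
  rw [Function.iterate_mul]
  exact Function.iterate_fixed hh m

private theorem iter_add' (n : ℕ) (a c : E) :
    (⇑D.Φ)^[n] (a + c) = (⇑D.Φ)^[n] a + (⇑D.Φ)^[n] c := by
  induction n with
  | zero => rfl
  | succ n ih => rw [Function.iterate_succ_apply', Function.iterate_succ_apply',
      Function.iterate_succ_apply', ih, map_add]

private theorem iter_mul' (n : ℕ) (a c : E) :
    (⇑D.Φ)^[n] (a * c) = (⇑D.Φ)^[n] a * (⇑D.Φ)^[n] c := by
  induction n with
  | zero => rfl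
  | succ n ih => rw [Function.iterate_succ_apply', Function.iterate_succ_apply',
      Function.iterate_succ_apply', ih, map_mul]

private theorem iter_div' (n : ℕ) (a c : E) :
    (⇑D.Φ)^[n] (a / c) = (⇑D.Φ)^[n] a / (⇑D.Φ)^[n] c := by
  induction n with
  | zero => rfl
  | succ n ih => rw [Function.iterate_succ_apply', Function.iterate_succ_apply',
      Function.iterate_succ_apply', ih, map_div₀]

private theorem two {a c : E} (ha : ∃ n : ℕ, 0 < n ∧ (⇑D.Φ)^[n] a = a)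
    (hc : ∃ n : ℕ, 0 < n ∧ (⇑D.Φ)^[n] c = c) :
    ∃ n : ℕ, 0 < n ∧ (⇑D.Φ)^[n] a = a ∧ (⇑D.Φ)^[n] c = c := by
  obtain ⟨n, hn, ha⟩ := ha
  obtain ⟨m, hm, hc⟩ := hc
  refine ⟨n * m, Nat.mul_pos hn hm, iter_mul D n m a ha, ?_⟩
  rw [mul_comm]
  exact iter_mul D m n c hc

private theorem P_add {a c : E} (ha : ∃ n : ℕ, 0 < n ∧ (⇑D.Φ)^[n] a = a)
    (hc : ∃ n : ℕ, 0 < n ∧ (⇑D.Φ)^[n] c = c) :
    ∃ n : ℕ, 0 < n ∧ (⇑D.Φ)^[n] (a + c) = a + c := by
  obtain ⟨n, hn, h1, h2⟩ := two D ha hc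
  exact ⟨n, hn, by rw [iter_add', h1, h2]⟩

private theorem P_mul {a c : E} (ha : ∃ n : ℕ, 0 < n ∧ (⇑D.Φ)^[n] a = a)
    (hc : ∃ n : ℕ, 0 < n ∧ (⇑D.Φ)^[n] c = c) :
    ∃ n : ℕ, 0 < n ∧ (⇑D.Φ)^[n] (a * c) = a * c := by
  obtain ⟨n, hn, h1, h2⟩ := two D ha hc
  exact ⟨n, hn, by rw [iter_mul', h1, h2]⟩

private theorem P_div {a c : E} (ha : ∃ n : ℕ, 0 < n ∧ (⇑D.Φ)^[n] a = a)
    (hc : ∃ n : ℕ, 0 < n ∧ (⇑D.Φ)^[n] c = c) :
    ∃ n : ℕ, 0 < n ∧ (⇑D.Φ)^[n] (a / c) = a / c := by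
  obtain ⟨n, hn, h1, h2⟩ := two D ha hc
  exact ⟨n, hn, by rw [iter_div', h1, h2]⟩

private theorem P_x : ∃ n : ℕ, 0 < n ∧ (⇑D.Φ)^[n] D.x = D.x := ⟨1, one_pos, D.Φ_x⟩

private theorem P_f (a : f) :
    ∃ n : ℕ, 0 < n ∧ (⇑D.Φ)^[n] (algebraMap f E a) = algebraMap f E a := by
  obtain ⟨n, hn, h⟩ := D.fin a
  exact ⟨n, hn, by rw [Φ_iter_f, h]⟩

private theorem P_pow {a : E} (ha : ∃ n : ℕ, 0 < n ∧ (⇑D.Φ)^[n] a = a) (k : ℕ) :
    ∃ n : ℕ, 0 < n ∧ (⇑D.Φ)^[n] (a ^ k) = a ^ k := by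
  induction k with
  | zero =>
    refine ⟨1, one_pos, ?_⟩
    rw [pow_zero]
    exact map_one D.Φ
  | succ k ih =>
    rw [pow_succ]
    exact P_mul D ih ha

private theorem P_aeval (r : f[X]) :
    ∃ n : ℕ, 0 < n ∧ (⇑D.Φ)^[n] (aeval D.x r) = aeval D.x r := by
  induction r using Polynomial.induction_on' with
  | add p q hp hq =>
    rw [map_add]
    exact P_add D hp hq
  | monomial n a =>
    rw [aeval_monomial]
    exact P_mul D (P_f D a) (P_pow D (P_x D) n)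

private theorem P_sum (s : Finset (Fin ℓ)) (g : Fin ℓ → E)
    (hg : ∀ j, ∃ n : ℕ, 0 < n ∧ (⇑D.Φ)^[n] (g j) = g j) :
    ∃ n : ℕ, 0 < n ∧ (⇑D.Φ)^[n] (∑ j ∈ s, g j) = ∑ j ∈ s, g j := by
  classical
  induction s using Finset.induction_on with
  | empty =>
    refine ⟨1, one_pos, ?_⟩
    rw [Finset.sum_empty]
    exact map_zero D.Φ
  | insert a s ha ih =>
    rw [Finset.sum_insert ha]
    exact P_add D (hg a) ih

private theorem P_O {h : E} (hh : h ∈ O) : ∃ n : ℕ, 0 < n ∧ (⇑D.Φ)^[n] h = h := by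
  obtain ⟨r, rfl⟩ := (D.mem h).mp hh
  exact P_sum D Finset.univ (fun j => aeval D.x (r j) * D.b j) fun j =>
    P_mul D (P_aeval D (r j)) ⟨1, one_pos, D.Φ_b j⟩

theorem exists_iter (h : E) : ∃ n : ℕ, 0 < n ∧ (⇑D.Φ)^[n] h = h := by
  obtain ⟨a, ha, d, hd, _, rfl⟩ := D.frac h
  exact P_div D (P_O D ha) (P_O D hd)

theorem exists_iter_finset (T : Finset E) : ∃ n : ℕ, 0 < n ∧ ∀ h ∈ T, (⇑D.Φ)^[n] h = h := by
  classical
  induction T using Finset.induction_on with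
  | empty => exact ⟨1, one_pos, fun h hh => absurd hh (Finset.notMem_empty h)⟩
  | insert a s ha ih =>
    obtain ⟨n, hn, h1⟩ := ih
    obtain ⟨m, hm, h2⟩ := exists_iter D a
    refine ⟨n * m, Nat.mul_pos hn hm, fun h hh => ?_⟩
    rcases Finset.mem_insert.mp hh with rfl | hh
    · rw [mul_comm]
      exact iter_mul D m n h h2
    · exact iter_mul D n m h (h1 h hh)

private theorem iter_mem (n : ℕ) {h : E} (hh : h ∈ O) : (⇑D.Φ)^[n] h ∈ O := by
  induction n with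
  | zero => exact hh
  | succ n ih =>
    rw [Function.iterate_succ_apply']
    exact Φ_mem D ih

private theorem iter_ne (n : ℕ) {h : E} (hh : h ≠ 0) : (⇑D.Φ)^[n] h ≠ 0 := by
  induction n with
  | zero => exact hh
  | succ n ih =>
    rw [Function.iterate_succ_apply']
    exact (map_ne_zero D.Φ).mpr ih

/-- a nonzero multiple of `d` fixed by `Φ` -/
theorem exists_fixed_mul (d : E) (hd : d ∈ O) (hd0 : d ≠ 0) :
    ∃ d' ∈ O, d' ≠ 0 ∧ d * d' ∈ D.S := by
  obtain ⟨n, hn, h⟩ := exists_iter D d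
  obtain ⟨m, rfl⟩ : ∃ m, n = m + 1 := ⟨n - 1, by omega⟩
  refine ⟨∏ i ∈ Finset.range m, (⇑D.Φ)^[i + 1] d, ?_, ?_, ?_, ?_⟩
  · exact prod_mem fun i _ => iter_mem D (i + 1) hd
  · exact Finset.prod_ne_zero_iff.mpr fun i _ => iter_ne D (i + 1) hd0
  · exact mul_mem hd (prod_mem fun i _ => iter_mem D (i + 1) hd)
  · have e1 : d * ∏ i ∈ Finset.range m, (⇑D.Φ)^[i + 1] d =
        ∏ i ∈ Finset.range (m + 1), (⇑D.Φ)^[i] d := by
      rw [Finset.prod_range_succ', mul_comm, Function.iterate_zero, id]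
    have e2 : D.Φ (∏ i ∈ Finset.range (m + 1), (⇑D.Φ)^[i] d) =
        ∏ i ∈ Finset.range (m + 1), (⇑D.Φ)^[i + 1] d := by
      rw [map_prod]
      exact Finset.prod_congr rfl fun i _ => (Function.iterate_succ_apply' _ i d).symm
    rw [e1, e2, Finset.prod_range_succ, h, ← e1, mul_comm]

end Data

end Pool.Agent.SB.FD
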