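import Pool.Agent.Helper35.SN.FDDefs

set_option autoImplicit false

/-!
# PROJECT SB, block N, part C: the Moore matrix lemma (SB-N-C01)

Proof.  `X ^ (q ^ n) - X` has derivative `-1` (`q = 0` in `f`), so it is separable and has `q ^ n`
distinct roots in `f` (`FiniteField`-like: `Polynomial.card_rootSet_eq_natDegree` /
`IsAlgClosed.splits`, `nodup_roots`).  Work in `V ⧸ N`; if the class of `e 0` is not zero choose a
linear functional `φ` with `φ (e 0) ≠ 0` and `φ = 0` on `N` (`Module.exists_dual_forall_apply_eq_zero_iff`,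
`Submodule.exists_le_ker_of_notMem`, or `Basis`); `P = ∑_{i < n} C (φ (e i)) * X ^ (q ^ i)` has
coefficient `φ (e 0) ≠ 0` at `X ^ 1` (the exponents `q ^ i` are distinct since `1 < q`), degree
`< q ^ n`, and vanishes at the `q ^ n` roots: contradiction.
-/

open Polynomial

namespace Pool.Agent.SB.FD

theorem moore {f V : Type} [Field f] [IsAlgClosed f] [AddCommGroup V] [Module f V] (q n : ℕ)
    (hq : 1 < q) (hq0 : (q : f) = 0) (hn : 0 < n) (N : Submodule f V) (e : ℕ → V)
    (h : ∀ u : f, u ^ (q ^ n) = u → ∑ i ∈ Finset.range n, u ^ (q ^ i) • e i ∈ N) :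
    e 0 ∈ N := by
  classical
  by_contra hcon
  obtain ⟨φ, hφN, hφ0⟩ : ∃ φ : V →ₗ[f] f, (∀ x ∈ N, φ x = 0) ∧ φ (e 0) ≠ 0 := by
    obtain ⟨φ, h1, h2⟩ := LinearMap.exists_extend_of_notMem (K := f) (p := N) (v := e 0)
      (V' := f) 0 hcon 1
    refine ⟨φ, fun x hx => ?_, ?_⟩
    · have := LinearMap.congr_fun h1 ⟨x, hx⟩
      simpa using this
    · rw [h2]
      exact one_ne_zero
  obtain ⟨P, hP⟩ : ∃ P : f[X], P = ∑ i ∈ Finset.range n, C (φ (e i)) * X ^ (q ^ i) := ⟨_, rfl⟩
  have hqn : 1 < q ^ n := Nat.one_lt_pow hn.ne' hq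
  have hPne : P ≠ 0 := by
    intro h0
    have h1 : P.coeff 1 = φ (e 0) := by
      rw [hP, finsetSum_coeff, Finset.sum_eq_single 0]
      · rw [coeff_C_mul, pow_zero, pow_one, coeff_X_one, mul_one]
      · intro i _ hi
        rw [coeff_C_mul, coeff_X_pow, if_neg, mul_zero]
        intro h2
        exact (Nat.one_lt_pow hi hq).ne h2
      · intro h2
        exact absurd (Finset.mem_range.2 hn) h2
    rw [h0, coeff_zero] at h1
    exact hφ0 h1.symm
  have hdeg : P.natDegree < q ^ n := by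
    rw [hP]
    refine lt_of_le_of_lt (natDegree_sum_le_of_forall_le (n := q ^ (n - 1)) _ _ ?_) ?_
    · intro i hi
      refine (natDegree_C_mul_X_pow_le _ _).trans ?_
      exact Nat.pow_le_pow_right (by omega) (by have := Finset.mem_range.1 hi; omega)
    · exact Nat.pow_lt_pow_right hq (by omega)
  -- the roots
  have hsep : (X ^ (q ^ n) - X : f[X]).Separable := by
    refine galois_poly_separable (ringChar f) (q ^ n) ?_
    rw [← CharP.cast_eq_zero_iff f (ringChar f)]
    rw [Nat.cast_pow, hq0, zero_pow hn.ne']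
  have hcard : (X ^ (q ^ n) - X : f[X]).roots.toFinset.card = q ^ n := by
    rw [Multiset.toFinset_card_of_nodup (nodup_roots hsep)]
    rw [(IsAlgClosed.splits (X ^ (q ^ n) - X : f[X])).natDegree_eq_card_roots.symm]
    exact FiniteField.X_pow_card_sub_X_natDegree_eq f hqn
  have hne : (X ^ (q ^ n) - X : f[X]) ≠ 0 := FiniteField.X_pow_card_sub_X_ne_zero f hqn
  apply hPne
  refine Polynomial.eq_zero_of_natDegree_lt_card_of_eval_eq_zero' P
    (X ^ (q ^ n) - X : f[X]).roots.toFinset ?_ ?_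
  · intro u hu
    rw [Multiset.mem_toFinset, mem_roots hne, IsRoot, eval_sub, eval_pow, eval_X, sub_eq_zero] at hu
    have h1 := hφN _ (h u hu)
    rw [hP, eval_finsetSum]
    rw [map_sum] at h1
    rw [← h1]
    refine Finset.sum_congr rfl fun i _ => ?_
    rw [eval_mul, eval_C, eval_pow, eval_X, map_smul, smul_eq_mul, mul_comm]
  · rw [hcard]
    exact hdeg

end Pool.Agent.SB.FD
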