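import Mathlib

set_option autoImplicit false

/-!
# PROJECT SB, block N, part D: residue fields of valuation rings of algebraically closed fields
(SB-N-D04)

Proofs.  `resid_algClosed`: lift a monic polynomial over the residue field to a monic polynomial
over `V` of the same degree (`Polynomial.lifts_and_natDegree_eq_and_monic` for the surjective
residue map); it has a root in `W`, integral over `V`, so in `V` (`V` is integrally closed in `W`,
`ValuationSubring`), its residue is a root (`IsAlgClosed.of_exists_root`).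
`resid_root`: `z ^ N = 1` in the residue field with `N` prime to `p`, so
`z ^ (q ^ φ(N)) = z` as `q ^ φ(N) = 1 mod N`.
`resid_prim`: `1 - z` divides `∏_{0 < i < ℓ} (1 - z ^ i) = ℓ` in `V`
(`IsPrimitiveRoot.prod_one_sub_pow_eq_order` or evaluate `1 + X + ... + X ^ (ℓ - 1)` at `1`).
-/

open IsLocalRing

namespace Pool.Agent.SB

variable {W : Type} [Field W] (V : ValuationSubring W)

theorem resid_algClosed [IsAlgClosed W] : IsAlgClosed (ResidueField V) := by
  apply IsAlgClosed.of_exists_root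
  intro p hp hirr
  obtain ⟨q, hq, hqd, hqm⟩ := Polynomial.lifts_and_natDegree_eq_and_monic
    (f := residue V) (p := p) (by
      rw [Polynomial.lifts_iff_coeff_lifts]
      intro n
      exact residue_surjective _) hp
  have hd : (q.map (algebraMap V W)).degree ≠ 0 := by
    intro h0
    rw [hqm.degree_map] at h0
    have h1 : q.natDegree = 0 := Polynomial.natDegree_eq_of_degree_eq_some h0
    rw [hqd] at h1
    exact (hirr.natDegree_pos).ne' h1
  obtain ⟨w, hw⟩ := IsAlgClosed.exists_root _ hd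
  have hint : IsIntegral V w := by
    refine ⟨q, hqm, ?_⟩
    rw [Polynomial.IsRoot.def, Polynomial.eval_map] at hw
    exact hw
  obtain ⟨v, hv⟩ := IsIntegrallyClosed.isIntegral_iff.1 hint
  refine ⟨residue V v, ?_⟩
  have hr : q.eval v = 0 := by
    apply FaithfulSMul.algebraMap_injective V W
    rw [map_zero, ← Polynomial.eval₂_at_apply, hv, ← Polynomial.eval_map]
    exact hw
  rw [← hq, Polynomial.eval_map, Polynomial.eval₂_at_apply, hr, map_zero]

theorem resid_zero_iff (x : V) : residue V x = 0 ↔ (x : W) ∈ V.nonunits := by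
  rw [residue_eq_zero_iff, ValuationSubring.coe_mem_nonunits_iff]

theorem resid_eq_iff (x y : V) : residue V x = residue V y ↔ (x : W) - y ∈ V.nonunits := by
  rw [← sub_eq_zero, ← map_sub, resid_zero_iff]
  rfl

private theorem ResF_root {p q r : ℕ} (hp : p.Prime) (hr : 0 < r) (hq : q = p ^ r) {K : Type} [Monoid K]
    {N : ℕ} (hN : ¬ p ∣ N) (z : K) (hz : z ^ N = 1) : ∃ n : ℕ, 0 < n ∧ z ^ (q ^ n) = z := by
  have hN0 : N ≠ 0 := by
    rintro rfl
    exact hN (dvd_zero p)
  have hc : Nat.Coprime q N := by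
    rw [hq]
    exact Nat.Coprime.pow_left r ((Nat.Prime.coprime_iff_not_dvd hp).2 hN)
  refine ⟨N.totient, Nat.totient_pos.2 (Nat.pos_of_ne_zero hN0), ?_⟩
  have h1 : q ^ N.totient ≡ 1 [MOD N] := Nat.ModEq.pow_totient hc
  have h2 : q ^ N.totient ≥ 1 := Nat.one_le_pow _ _ (by rw [hq]; exact pow_pos hp.pos r)
  obtain ⟨c, hc'⟩ := (Nat.modEq_iff_dvd' h2).1 h1.symm
  have h3 : q ^ N.totient = N * c + 1 := by omega
  rw [h3, pow_succ, pow_mul, hz, one_pow, one_mul]

theorem resid_root {p q r : ℕ} (hp : p.Prime) (hr : 0 < r) (hq : q = p ^ r)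
    (teich : ∀ x : W, x ∈ V → x ∉ V.nonunits →
      ∃ (N : ℕ) (ζ y : W), ¬ p ∣ N ∧ ζ ^ N = 1 ∧ y ∈ V.nonunits ∧ x = ζ * (1 + y))
    (z : ResidueField V) : ∃ n : ℕ, 0 < n ∧ z ^ (q ^ n) = z := by
  obtain ⟨x, rfl⟩ := residue_surjective z
  by_cases hx : (x : W) ∈ V.nonunits
  · refine ⟨1, one_pos, ?_⟩
    rw [(resid_zero_iff V x).2 hx, zero_pow]
    rw [pow_one, hq]
    exact (pow_pos hp.pos r).ne'
  · obtain ⟨N, ζ, y, hN, hζ, hy, hxe⟩ := teich x x.2 hx
    have hN0 : N ≠ 0 := by
      rintro rfl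
      exact hN (dvd_zero p)
    have hζV : ζ ∈ V := by
      have h1 : V.valuation ζ ^ N = 1 := by rw [← map_pow, hζ, map_one]
      rw [← V.valuation_le_one_iff]
      exact ((pow_eq_one_iff_of_nonneg zero_le hN0).1 h1).le
    have hyV : y ∈ V := V.nonunits_subset hy
    have h2 : x = (⟨ζ, hζV⟩ : V) * (1 + ⟨y, hyV⟩) := Subtype.ext hxe
    have h3 : residue V x = residue V ⟨ζ, hζV⟩ := by
      rw [h2, map_mul, map_add, map_one, (resid_zero_iff V ⟨y, hyV⟩).2 hy, add_zero, mul_one]
    rw [h3]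
    refine ResF_root hp hr hq hN _ ?_
    have h4 : (⟨ζ, hζV⟩ : V) ^ N = 1 := Subtype.ext hζ
    rw [← map_pow, h4, map_one]

theorem resid_q {p q r : ℕ} (hr : 0 < r) (hq : q = p ^ r) (hpV : (p : W) ∈ V.nonunits) :
    (q : ResidueField V) = 0 := by
  have h1 : (p : ResidueField V) = 0 := by
    have h2 : residue V (p : V) = 0 := (resid_zero_iff V (p : V)).2 (by exact_mod_cast hpV)
    rw [map_natCast] at h2
    exact h2
  rw [hq, Nat.cast_pow, h1, zero_pow hr.ne']

theorem root_mem_V {ℓ : ℕ} (hℓ : 0 < ℓ) {z : W} (hz : z ^ ℓ = 1) : z ∈ V := by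
  have h1 : V.valuation z ^ ℓ = 1 := by rw [← map_pow, hz, map_one]
  rw [← V.valuation_le_one_iff]
  exact ((pow_eq_one_iff_of_nonneg zero_le hℓ.ne').1 h1).le

theorem resid_prim {ℓ : ℕ} (hℓ : ℓ.Prime) (hℓV : (ℓ : W) ∉ V.nonunits) (z : V)
    (hz : IsPrimitiveRoot (z : W) ℓ) : IsPrimitiveRoot (residue V z) ℓ := by
  have hpr : Fact ℓ.Prime := ⟨hℓ⟩
  have hzV : z ^ ℓ = 1 := Subtype.ext hz.pow_eq_one
  have h0 : (residue V z) ^ ℓ = 1 := by rw [← map_pow, hzV, map_one]
  have h1 : residue V z ≠ 1 := by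
    intro h
    have hne : z ≠ 1 := by
      rintro rfl
      exact hℓ.one_lt.ne' (hz.eq_orderOf.trans (by simp))
    have h2 : (∑ i ∈ Finset.range ℓ, z ^ i) = 0 := by
      have h3 := mul_geom_sum z ℓ
      rw [hzV, sub_self] at h3
      exact (mul_eq_zero.1 h3).resolve_left (sub_ne_zero.2 hne)
    have h4 : (ℓ : ResidueField V) = 0 := by
      have h5 := congrArg (residue V) h2
      rw [map_sum, map_zero] at h5
      simp only [map_pow, h, one_pow, Finset.sum_const, Finset.card_range, nsmul_eq_mul, mul_one] at h5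
      exact h5
    apply hℓV
    have h6 : residue V (ℓ : V) = 0 := by rw [map_natCast]; exact h4
    have h7 := (resid_zero_iff V (ℓ : V)).1 h6
    exact_mod_cast h7
  have h2 := orderOf_eq_prime h0 h1
  rw [← h2]
  exact IsPrimitiveRoot.orderOf _

theorem exists_resid_equiv (τ : W ≃+* W) (hτ : ∀ x, τ x ∈ V ↔ x ∈ V) :
    ∃ (τV : V ≃+* V) (τ' : ResidueField V ≃+* ResidueField V),
      (∀ a : V, (τV a : W) = τ a) ∧ ∀ a : V, residue V (τV a) = τ' (residue V a) := by
  let e : V ≃+* V :=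
    { toFun := fun a => ⟨τ a, (hτ a).2 a.2⟩
      invFun := fun a => ⟨τ.symm a, by
        have h1 := hτ (τ.symm a)
        rw [RingEquiv.apply_symm_apply] at h1
        exact h1.1 a.2⟩
      left_inv := fun a => Subtype.ext (by simp)
      right_inv := fun a => Subtype.ext (by simp)
      map_mul' := fun a b => Subtype.ext (by simp)
      map_add' := fun a b => Subtype.ext (by simp) }
  exact ⟨e, ResidueField.mapEquiv e, fun a => rfl, fun a => rfl⟩

end Pool.Agent.SB
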