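import Pool.Agent.Helper35.SN.EvW

set_option autoImplicit false

/-!
# PROJECT SB, block N, part D: the section and the field `Z` (SB-N-D02)

Proofs.  `evW_mem_Z`: `kbar ⊆ Z` (`kbar_subset_etSet`), `x - c 0` and `w = y ^ ℓ` are units of
`xring` (`c i ∈ k1`), so `x - c 0, y ∈ Z` (`root_mem_etSet` with `N = 1` and `N = ℓ`), `Z` is a field;
formula `evW_ap`.  `kummer_Z`: `exists_equiv_OW` + `kummer_mem` with `J.map e`, `α = e g`, `β = 1`.
`sec_evW`: formula `evW_ap`; `s γ` is a ring homomorphism, equal to `γ` on `kbar` (`IsSec.ind`) and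
fixing `x` and `y`.
-/

open Polynomial IntermediateField

namespace Pool.Agent.SB

open Pool.Agent.Helper12.SN

variable {k : Type} [Field k] [CharZero k] {Ω : Type} [Field Ω] [Algebra k Ω] [IsAlgClosed Ω]
  {ℓ : ℕ} [Fact ℓ.Prime] {c : Fin 3 → kbar k Ω} {x y : Ω}
  (h : y ^ ℓ * (x - (c 1 : Ω)) = (x - (c 0 : Ω)) * (x - (c 2 : Ω)))

private theorem secZ_ev_comp {A B C : Type} [CommRing A] [CommRing B] [CommRing C]
    {ℓ : ℕ} [NeZero ℓ] {d : Fin 3 → A} (φ : A →+* B) (ψ : B →+* C) (φ' : A →+* C) (x y : B)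
    (x' y' : C) (hφ : ψ.comp φ = φ') (hx : ψ x = x') (hy : ψ y = y')
    (h : y ^ ℓ * (x - φ (d 1)) = (x - φ (d 0)) * (x - φ (d 2)))
    (h' : y' ^ ℓ * (x' - φ' (d 1)) = (x' - φ' (d 0)) * (x' - φ' (d 2))) (r : RR ℓ d) :
    ψ (ev φ x y h r) = ev φ' x' y' h' r := by
  subst hφ
  subst hx
  subst hy
  rw [ev_ap, ev_ap, map_sum]
  refine Finset.sum_congr rfl fun j _ => ?_
  rw [map_mul, Polynomial.hom_eval₂]
  congr 1
  unfold uval
  split_ifs
  · exact map_one ψ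
  · rw [map_mul, map_sub, map_pow, RingHom.comp_apply]

private theorem secZ_ev_map {A B : Type} [CommRing A] [CommRing B] {ℓ : ℕ} [NeZero ℓ]
    {d : Fin 3 → A} (φ : A →+* B) (σ : A →+* A) (hσ : ∀ i, σ (d i) = d i) (x y : B)
    (h : y ^ ℓ * (x - φ (d 1)) = (x - φ (d 0)) * (x - φ (d 2)))
    (h' : y ^ ℓ * (x - φ.comp σ (d 1)) = (x - φ.comp σ (d 0)) * (x - φ.comp σ (d 2)))
    (r : RR ℓ d) :
    ev (φ.comp σ) x y h' r = ev φ x y h (RR.map σ hσ r) := by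
  rw [ev_ap, ev_ap]
  refine Finset.sum_congr rfl fun j _ => ?_
  rw [map_ap, Polynomial.eval₂_map]
  congr 1
  unfold uval
  rw [RingHom.comp_apply, hσ]

private theorem secZ_ne (hx : Transcendental k x) (a : kbar k Ω) : x - (a : Ω) ≠ 0 := by
  intro h0
  rw [sub_eq_zero] at h0
  apply hx
  rw [h0]
  exact mem_algebraicClosure_iff.1 a.2

private theorem secZ_kbar (k1 : IntermediateField k (kbar k Ω)) (a : kbar k Ω) :
    (a : Ω) ∈ etField k (xring k k1 x c) :=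
  subset_adjoin k _ (kbar_subset_etSet k _ a)

private theorem secZ_c_mem (k1 : IntermediateField k (kbar k Ω)) (hc : ∀ i, c i ∈ k1) (i : Fin 3) :
    x - (c i : Ω) ∈ xring k k1 x c :=
  sub_mem (Algebra.subset_adjoin (Or.inl (Or.inr rfl)))
    (Algebra.subset_adjoin (Or.inl (Or.inl ⟨c i, hc i, rfl⟩)))

private theorem secZ_inv_mem (k1 : IntermediateField k (kbar k Ω)) (i : Fin 3) :
    (x - (c i : Ω))⁻¹ ∈ xring k k1 x c :=
  Algebra.subset_adjoin (Or.inr ⟨i, rfl⟩)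

private theorem secZ_x (k1 : IntermediateField k (kbar k Ω)) (hc : ∀ i, c i ∈ k1)
    (hx : Transcendental k x) : x ∈ etField k (xring k k1 x c) := by
  have h1 : x - (c 0 : Ω) ∈ etField k (xring k k1 x c) :=
    subset_adjoin k _ (root_mem_etSet k _ 1 one_pos (x - (c 0 : Ω)) (secZ_c_mem k1 hc 0)
      (secZ_inv_mem k1 0) (secZ_ne hx (c 0)) _ (pow_one _))
  have h2 := add_mem h1 (secZ_kbar (x := x) (c := c) k1 (c 0))
  rwa [sub_add_cancel] at h2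

include h in
private theorem secZ_y (k1 : IntermediateField k (kbar k Ω)) (hc : ∀ i, c i ∈ k1)
    (hx : Transcendental k x) : y ∈ etField k (xring k k1 x c) := by
  have h0 := secZ_ne hx (c 0)
  have h1 := secZ_ne hx (c 1)
  have h2 := secZ_ne hx (c 2)
  have hℓ : ℓ.Prime := Fact.out
  refine subset_adjoin k _ (root_mem_etSet k _ ℓ hℓ.pos
    ((x - (c 0 : Ω)) * (x - (c 2 : Ω)) * (x - (c 1 : Ω))⁻¹)
    (mul_mem (mul_mem (secZ_c_mem k1 hc 0) (secZ_c_mem k1 hc 2)) (secZ_inv_mem k1 1)) ?_ ?_ _ ?_)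
  · rw [mul_inv, mul_inv, inv_inv]
    exact mul_mem (mul_mem (secZ_inv_mem k1 0) (secZ_inv_mem k1 2)) (secZ_c_mem k1 hc 1)
  · exact mul_ne_zero (mul_ne_zero h0 h2) (inv_ne_zero h1)
  · rw [← h, mul_assoc, mul_inv_cancel₀ h1, mul_one]

theorem evW_mem_Z (k1 : IntermediateField k (kbar k Ω)) (hc : ∀ i, c i ∈ k1)
    (hx : Transcendental k x) (r : RR ℓ c) : evW c x y h r ∈ etField k (xring k k1 x c) := by
  rw [evW_ap]
  refine sum_mem fun j _ => mul_mem ?_ ?_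
  · rw [Polynomial.eval₂_eq_sum_range]
    exact sum_mem fun i _ => mul_mem (secZ_kbar k1 _) (pow_mem (secZ_x k1 hc hx) _)
  · unfold uval
    split_ifs
    · exact one_mem _
    · exact mul_mem (sub_mem (secZ_x k1 hc hx) (secZ_kbar k1 _)) (pow_mem (secZ_y h k1 hc hx) _)

theorem kummer_Z [Good ℓ c] (k1 : IntermediateField k (kbar k Ω)) [FiniteDimensional k k1]
    (ζ : kbar k Ω) (hζ : IsPrimitiveRoot ζ ℓ) (hζ1 : ζ ∈ k1) (hc : ∀ i, c i ∈ k1)
    (hx : Transcendental k x) (N : ℕ) (hN : 0 < N) (J : Ideal (RR ℓ c)) (g : RR ℓ c) (hg : g ≠ 0)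
    (hJ : J ^ N = Ideal.span {g}) (θ : Ω) (hθ : θ ^ N = evW c x y h g) :
    θ ∈ etField k (xring k k1 x c) := by
  have hℓ : ℓ.Prime := Fact.out
  obtain ⟨e, he⟩ := exists_equiv_OW (c := c) h hx
  refine kummer_mem k ℓ hℓ k1 ζ hζ hζ1 c hc (Good.inj ℓ) x y hx h N hN
    (J.map (e : RR ℓ c →+* OW k x y)) (e g) 1 ?_ one_ne_zero ?_ θ ?_
  · intro h0
    exact hg ((map_eq_zero_iff e e.injective).1 h0)
  · rw [Ideal.span_singleton_one, ← Ideal.one_eq_top, one_mul, ← Ideal.map_pow, hJ,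
      Ideal.map_span, Set.image_singleton]
    rfl
  · rw [he, ← hθ]
    exact mul_one _

theorem sec_evW (k1 : IntermediateField k (kbar k Ω)) (hc : ∀ i, c i ∈ k1)
    (hx : Transcendental k x) {D : Subgroup (kbar k Ω ≃ₐ[k] kbar k Ω)}
    (s : D →* (etField k (xring k k1 x c) ≃ₐ[k] etField k (xring k k1 x c)))
    (hs : IsSec k D (etField k (xring k k1 x c)) s)
    (hxy : ∀ (γ : D) (θ : etField k (xring k k1 x c)), ((θ : Ω) = x ∨ (θ : Ω) = y) → s γ θ = θ)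
    (γ : D) (hγ : ∀ i, ((γ : kbar k Ω ≃ₐ[k] kbar k Ω) : kbar k Ω ≃+* kbar k Ω) (c i) = c i)
    (r : RR ℓ c) :
    ((s γ ⟨evW c x y h r, evW_mem_Z h k1 hc hx r⟩ : etField k (xring k k1 x c)) : Ω) =
      evW c x y h ((RR.mapEquiv ((γ : kbar k Ω ≃ₐ[k] kbar k Ω) : kbar k Ω ≃+* kbar k Ω) hγ :
        RR ℓ c ≃+* RR ℓ c) r) := by
  have hZ : (⟨y, secZ_y h k1 hc hx⟩ : etField k (xring k k1 x c)) ^ ℓ *
      ((⟨x, secZ_x k1 hc hx⟩ : etField k (xring k k1 x c)) -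
        ((algebraMap (kbar k Ω) Ω).codRestrict (etField k (xring k k1 x c)).toSubfield
          (fun a => secZ_kbar k1 a)) (c 1)) =
      ((⟨x, secZ_x k1 hc hx⟩ : etField k (xring k k1 x c)) -
        ((algebraMap (kbar k Ω) Ω).codRestrict (etField k (xring k k1 x c)).toSubfield
          (fun a => secZ_kbar k1 a)) (c 0)) *
      ((⟨x, secZ_x k1 hc hx⟩ : etField k (xring k k1 x c)) -
        ((algebraMap (kbar k Ω) Ω).codRestrict (etField k (xring k k1 x c)).toSubfield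
          (fun a => secZ_kbar k1 a)) (c 2)) := Subtype.ext h
  have h1 : (⟨evW c x y h r, evW_mem_Z h k1 hc hx r⟩ : etField k (xring k k1 x c)) =
      ev ((algebraMap (kbar k Ω) Ω).codRestrict (etField k (xring k k1 x c)).toSubfield
          (fun a => secZ_kbar k1 a)) ⟨x, secZ_x k1 hc hx⟩ ⟨y, secZ_y h k1 hc hx⟩ hZ r := by
    apply Subtype.ext
    exact (secZ_ev_comp _ ((etField k (xring k k1 x c)).val : _ →+* Ω)
      (algebraMap (kbar k Ω) Ω) _ _ x y rfl rfl rfl hZ h r).symm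
  rw [h1]
  have h2 : y ^ ℓ * (x - ((algebraMap (kbar k Ω) Ω).comp
      (((γ : kbar k Ω ≃ₐ[k] kbar k Ω) : kbar k Ω ≃+* kbar k Ω) : kbar k Ω →+* kbar k Ω)) (c 1)) =
      (x - ((algebraMap (kbar k Ω) Ω).comp
      (((γ : kbar k Ω ≃ₐ[k] kbar k Ω) : kbar k Ω ≃+* kbar k Ω) : kbar k Ω →+* kbar k Ω)) (c 0)) *
      (x - ((algebraMap (kbar k Ω) Ω).comp
      (((γ : kbar k Ω ≃ₐ[k] kbar k Ω) : kbar k Ω ≃+* kbar k Ω) : kbar k Ω →+* kbar k Ω)) (c 2)) := by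
    have h3 : ∀ i, ((algebraMap (kbar k Ω) Ω).comp
      (((γ : kbar k Ω ≃ₐ[k] kbar k Ω) : kbar k Ω ≃+* kbar k Ω) : kbar k Ω →+* kbar k Ω)) (c i) =
      (c i : Ω) := fun i => congrArg (algebraMap (kbar k Ω) Ω) (hγ i)
    rw [h3, h3, h3]
    exact h
  refine (secZ_ev_comp _ (((etField k (xring k k1 x c)).val : _ →+* Ω).comp
      ((s γ : etField k (xring k k1 x c) ≃+* etField k (xring k k1 x c)) :
        etField k (xring k k1 x c) →+* etField k (xring k k1 x c)))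
      ((algebraMap (kbar k Ω) Ω).comp
      (((γ : kbar k Ω ≃ₐ[k] kbar k Ω) : kbar k Ω ≃+* kbar k Ω) : kbar k Ω →+* kbar k Ω))
      _ _ x y ?_ ?_ ?_ hZ h2 r).trans ?_
  · ext a
    exact hs.ind γ a (secZ_kbar k1 a)
  · exact congrArg Subtype.val (hxy γ ⟨x, secZ_x k1 hc hx⟩ (Or.inl rfl))
  · exact congrArg Subtype.val (hxy γ ⟨y, secZ_y h k1 hc hx⟩ (Or.inr rfl))
  · exact secZ_ev_map _ _ hγ x y h h2 r

end Pool.Agent.SB
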