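import Pool.Agent.Helper35.SN.Iter
import Pool.Agent.Helper35.SN.Moore

set_option autoImplicit false

/-!
# PROJECT SB, block N, part C: `Φ`-stable ideals are extended from `S` (SB-N-C04)

Proof.  `N` := the `f`-span of `{z ∈ J : Φ z = z}` in `E`.  For `j ∈ J` choose `n > 0` with
`Φ^[n] j = j`; for `u : f` with `u ^ (q ^ n) = u` the element
`T = ∑_{i < n} Φ^[i] (u j) = ∑_{i < n} u ^ (q ^ i) • Φ^[i] j` is in `J` and fixed by `Φ`, so in `N`;
`moore` gives `j ∈ N`.
-/

open Polynomial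

namespace Pool.Agent.SB.FD

variable {f E : Type} [Field f] [IsAlgClosed f] [Field E] [Algebra f E] {O : Subalgebra f E}
  {q ℓ : ℕ}

namespace Data

variable (D : Data f E O q ℓ)

omit [IsAlgClosed f] in
private theorem iter_mem (J : Ideal O)
    (hJ : ∀ z : E, (∃ j ∈ J, D.Φ (j : E) = z) ↔ ∃ j ∈ J, (j : E) = z)
    (j : O) (hj : j ∈ J) (i : ℕ) : ∃ j' ∈ J, (j' : E) = (⇑D.Φ)^[i] (j : E) := by
  induction i with
  | zero => exact ⟨j, hj, rfl⟩
  | succ i ih =>
    obtain ⟨j', hj', h⟩ := ih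
    rw [Function.iterate_succ_apply', ← h]
    exact (hJ _).1 ⟨j', hj', rfl⟩

theorem stable_span (J : Ideal O) (hJ : ∀ z : E, (∃ j ∈ J, D.Φ (j : E) = z) ↔ ∃ j ∈ J, (j : E) = z)
    (j : O) (hj : j ∈ J) :
    (j : E) ∈ Submodule.span f {z : E | (∃ h : z ∈ O, (⟨z, h⟩ : O) ∈ J) ∧ D.Φ z = z} := by
  obtain ⟨n, hn, hjn⟩ := D.exists_iter (j : E)
  refine moore q n D.one_lt D.q_zero hn _ (fun i => (⇑D.Φ)^[i] (j : E)) ?_
  intro u hu
  apply Submodule.subset_span
  choose g hg using fun i => D.iter_mem J hJ j hj i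
  refine ⟨?_, ?_⟩
  · have h1 : ∑ i ∈ Finset.range n, u ^ (q ^ i) • (⇑D.Φ)^[i] (j : E) =
        ((∑ i ∈ Finset.range n, (algebraMap f O (u ^ (q ^ i))) * g i : O) : E) := by
      rw [AddSubmonoidClass.coe_finsetSum]
      refine Finset.sum_congr rfl fun i _ => ?_
      rw [MulMemClass.coe_mul, (hg i).2, Algebra.smul_def]
      rfl
    refine ⟨?_, ?_⟩
    · rw [h1]
      exact Subtype.property _
    · have h2 : (⟨∑ i ∈ Finset.range n, u ^ (q ^ i) • (⇑D.Φ)^[i] (j : E), by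
          rw [h1]
          exact Subtype.property _⟩ : O) =
          ∑ i ∈ Finset.range n, (algebraMap f O (u ^ (q ^ i))) * g i := Subtype.ext h1
      rw [h2]
      exact Ideal.sum_mem _ fun i _ => Ideal.mul_mem_left _ _ (hg i).1
  · rw [map_sum]
    have h3 : ∀ i, D.Φ (u ^ (q ^ i) • (⇑D.Φ)^[i] (j : E)) =
        u ^ (q ^ (i + 1)) • (⇑D.Φ)^[i + 1] (j : E) := by
      intro i
      rw [Algebra.smul_def, map_mul, D.Φ_f, Function.iterate_succ_apply', Algebra.smul_def,
        ← pow_mul, ← pow_succ]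
    simp only [h3]
    have h4 := Finset.sum_range_succ (fun i => u ^ (q ^ i) • (⇑D.Φ)^[i] (j : E)) n
    have h5 := Finset.sum_range_succ' (fun i => u ^ (q ^ i) • (⇑D.Φ)^[i] (j : E)) n
    rw [h4] at h5
    simp only [hjn, hu, pow_zero, pow_one, Function.iterate_zero, id] at h5
    exact (add_right_cancel h5).symm

/-- the inclusion `S → O` -/
def inc : D.S →+* O where
  toFun s := ⟨s, s.2.1⟩
  map_one' := rfl
  map_mul' _ _ := rfl
  map_zero' := rfl
  map_add' _ _ := rfl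

/-- a `Φ`-stable ideal is generated by its fixed elements -/
theorem stable_map (J : Ideal O)
    (hJ : ∀ z : E, (∃ j ∈ J, D.Φ (j : E) = z) ↔ ∃ j ∈ J, (j : E) = z) :
    (J.comap D.inc).map D.inc = J := by
  apply le_antisymm
  · exact Ideal.map_comap_le
  · intro j hj
    have key : ∀ y ∈ Submodule.span f {z : E | (∃ h : z ∈ O, (⟨z, h⟩ : O) ∈ J) ∧ D.Φ z = z},
        ∃ h : y ∈ O, (⟨y, h⟩ : O) ∈ (J.comap D.inc).map D.inc := by
      intro y hy
      induction hy using Submodule.span_induction with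
      | mem z hz =>
        obtain ⟨⟨h, hzJ⟩, hz⟩ := hz
        refine ⟨h, ?_⟩
        have h1 : (⟨z, h⟩ : O) = D.inc ⟨z, h, hz⟩ := rfl
        rw [h1]
        apply Ideal.mem_map_of_mem
        rw [Ideal.mem_comap, ← h1]
        exact hzJ
      | zero => exact ⟨zero_mem _, Ideal.zero_mem _⟩
      | add a b _ _ ha hb =>
        obtain ⟨ha1, ha2⟩ := ha
        obtain ⟨hb1, hb2⟩ := hb
        exact ⟨add_mem ha1 hb1, Ideal.add_mem _ ha2 hb2⟩
      | smul c a _ ha =>
        obtain ⟨ha1, ha2⟩ := ha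
        have h1 : c • a ∈ O := Subalgebra.smul_mem _ ha1 c
        refine ⟨h1, ?_⟩
        have h2 : (⟨c • a, h1⟩ : O) = algebraMap f O c * ⟨a, ha1⟩ := by
          apply Subtype.ext
          change c • a = algebraMap f E c * a
          rw [Algebra.smul_def]
        rw [h2]
        exact Ideal.mul_mem_left _ _ ha2
    obtain ⟨h, h1⟩ := key _ (D.stable_span J hJ j hj)
    exact h1

end Data

end Pool.Agent.SB.FD
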