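import Mathlib

set_option autoImplicit false

/-!
# PROJECT SB, block N, part D: the theta argument (proved)

`W` the constants, `E` the function field of the curve, `Z ⊇ E` the compositum of the étale
covers, `s` the section.
-/

namespace Pool.Agent.SB

/-- the action of a section on the function field of the curve and on `Z` -/
structure ThetaData (Γ W E Z : Type) [Group Γ] [Field W] [Field E] [Field Z] where
  /-- constants -/
  cst : W →+* E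
  /-- the inclusion of the function field -/
  ι : E →+* Z
  /-- leading coefficient at infinity -/
  lc : E →*₀ W
  /-- the action on constants -/
  aW : Γ →* (W ≃+* W)
  /-- the action on functions -/
  aE : Γ →* (E ≃+* E)
  /-- the section -/
  s : Γ →* (Z ≃+* Z)
  lc_cst : ∀ w, lc (cst w) = w
  aE_cst : ∀ γ w, aE γ (cst w) = cst (aW γ w)
  lc_aE : ∀ γ e, lc (aE γ e) = aW γ (lc e)
  s_ι : ∀ γ e, s γ (ι e) = ι (aE γ e)

namespace ThetaData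

variable {Γ W E Z : Type} [Group Γ] [Field W] [Field E] [Field Z] (D : ThetaData Γ W E Z)

theorem root_unity {N : ℕ} (hN : 0 < N) {ξ : W} (hξ : IsPrimitiveRoot ξ N) {z w : Z} (hw : w ≠ 0)
    (h : z ^ N = w ^ N) : ∃ ε : W, ε ^ N = 1 ∧ z = D.ι (D.cst ε) * w := by
  have hξ' : IsPrimitiveRoot (D.ι (D.cst ξ)) N :=
    hξ.map_of_injective (f := D.ι.comp D.cst) (D.ι.comp D.cst).injective
  have h1 : (z / w) ^ N = 1 := by rw [div_pow, h, div_self (pow_ne_zero _ hw)]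
  haveI : NeZero N := ⟨hN.ne'⟩
  obtain ⟨i, -, hi⟩ := hξ'.eq_pow_of_pow_eq_one h1
  refine ⟨ξ ^ i, by rw [← pow_mul, mul_comm, pow_mul, hξ.pow_eq_one, one_pow], ?_⟩
  rw [map_pow, map_pow, hi, div_mul_cancel₀ _ hw]

theorem eq_of_const {e : E} {ε ε' : W} {h h' : E} (h0 : D.lc h = 1) (h0' : D.lc h' = 1)
    {G : Z} (hG : G ≠ 0)
    (heq : D.ι h * D.ι (D.cst ε) * G = D.ι h' * D.ι (D.cst ε') * G) : ε = ε' := by
  have h1 := mul_right_cancel₀ hG heq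
  rw [← map_mul, ← map_mul] at h1
  have h2 := congrArg D.lc (D.ι.injective h1)
  rwa [map_mul, map_mul, h0, h0', D.lc_cst, D.lc_cst, one_mul, one_mul] at h2

/-- the theta argument -/
theorem theta_core (I : Subgroup Γ) (σ : Γ) (q N ℓ : ℕ) (hN : 0 < N) (hℓ : 0 < ℓ) (hℓN : ℓ ∣ N)
    (ξ : W) (hξ : IsPrimitiveRoot ξ N)
    (hI : ∀ γ ∈ I, ∀ ζ : W, ζ ^ N = 1 → D.aW γ ζ = ζ)
    (hσ : ∀ ζ : W, ζ ^ N = 1 → D.aW σ ζ = ζ ^ q)
    (hnorm : ∀ γ ∈ I, σ⁻¹ * γ * σ ∈ I)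
    (g u : E) (G ω : Z) (hG : G ^ N = D.ι g) (hg : D.lc g = 1) (hu : D.lc u = 1)
    (xc : E) (hω : ω ^ ℓ = D.ι xc) (hxc : ∀ γ, D.aE γ xc = xc) (hxc0 : xc ≠ 0)
    (hσG : D.s σ G ^ N = (D.ι u * G * ω) ^ N)
    (hγ : ∀ γ ∈ I, ∃ h : E, D.lc h = 1 ∧ D.aE γ g = h ^ N * g)
    (T4 : ∀ ε : I → W, (∀ γ, ε γ ^ N = 1) → (∀ γ δ, ε (γ * δ) = ε γ * ε δ) →
      (∀ γ : I, D.s γ G = G → ε γ = 1) →
      ∀ γ γ' : I, (γ' : Γ) = σ * γ * σ⁻¹ → ε γ' = ε γ ^ q)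
    (γ : Γ) (hγI : γ ∈ I) : D.s γ ω = ω := by
  classical
  have hg0 : g ≠ 0 := by rintro rfl; rw [map_zero] at hg; exact zero_ne_one hg
  have hu0 : u ≠ 0 := by rintro rfl; rw [map_zero] at hu; exact zero_ne_one hu
  have hG0 : G ≠ 0 := by
    rintro rfl
    rw [zero_pow hN.ne'] at hG
    exact hg0 (D.ι.injective (by rw [← hG, map_zero]))
  have hω0 : ω ≠ 0 := by
    rintro rfl
    rw [zero_pow hℓ.ne'] at hω
    exact hxc0 (D.ι.injective (by rw [← hω, map_zero]))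
  -- the functions `h` and `ε`
  have key : ∀ γ : I, ∃ (ε : W) (h : E), ε ^ N = 1 ∧ D.lc h = 1 ∧
      D.s γ G = D.ι h * D.ι (D.cst ε) * G := by
    intro γ
    obtain ⟨h, hh, hh'⟩ := hγ γ γ.2
    have h0 : h ≠ 0 := by rintro rfl; rw [map_zero] at hh; exact zero_ne_one hh
    have h1 : D.s γ G ^ N = (D.ι h * G) ^ N := by
      rw [← map_pow, hG, D.s_ι, hh', map_mul, map_pow, ← hG, mul_pow]
    obtain ⟨ε, hε, hε'⟩ := D.root_unity hN hξ
      (mul_ne_zero ((map_ne_zero D.ι).2 h0) hG0) h1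
    exact ⟨ε, h, hε, hh, by rw [hε']; ring⟩
  choose ε h hε hh hs using key
  have hmul : ∀ γ δ : I, ε (γ * δ) = ε γ * ε δ := by
    intro γ δ
    have h1 : D.s ((γ * δ : I) : Γ) G = D.s γ (D.s δ G) := by
      rw [Subgroup.coe_mul, map_mul]
      rfl
    rw [hs, hs δ, map_mul, map_mul, D.s_ι, D.s_ι, D.aE_cst, hI γ γ.2 _ (hε δ), hs] at h1
    have h2 : D.ι (h (γ * δ)) * D.ι (D.cst (ε (γ * δ))) * G =
        D.ι (D.aE γ (h δ) * h γ) * D.ι (D.cst (ε γ * ε δ)) * G := by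
      rw [h1]
      simp only [map_mul]
      ring
    refine D.eq_of_const (e := 0) (hh _) ?_ hG0 h2
    rw [map_mul, D.lc_aE, hh, hh, map_one, one_mul]
  have hker : ∀ γ : I, D.s γ G = G → ε γ = 1 := by
    intro γ hγ
    rw [hs] at hγ
    have h2 : D.ι (h γ) * D.ι (D.cst (ε γ)) * G = D.ι 1 * D.ι (D.cst 1) * G := by
      rw [hγ]; simp
    exact D.eq_of_const (e := 0) (hh _) (map_one _) hG0 h2
  have hT4 := T4 ε hε hmul hker
  -- the equation for `σ`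
  obtain ⟨η, hη, hη'⟩ := D.root_unity hN hξ
    (mul_ne_zero (mul_ne_zero ((map_ne_zero D.ι).2 hu0) hG0) hω0) hσG
  have hη0 : η ≠ 0 := by
    rintro rfl
    rw [zero_pow hN.ne'] at hη
    exact zero_ne_one hη
  have hε0 : ∀ γ, ε γ ≠ 0 := by
    intro γ hγ
    have := hε γ
    rw [hγ, zero_pow hN.ne'] at this
    exact zero_ne_one this
  have hh0 : ∀ γ, h γ ≠ 0 := by
    intro γ hγ
    have := hh γ
    rw [hγ, map_zero] at this
    exact zero_ne_one this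
  -- `γ = σ δ σ⁻¹`
  set δ : I := ⟨σ⁻¹ * γ * σ, hnorm γ hγI⟩ with hδ
  set γI : I := ⟨γ, hγI⟩ with hγI'
  have hconj : (γI : Γ) = σ * δ * σ⁻¹ := by
    show γ = σ * (σ⁻¹ * γ * σ) * σ⁻¹
    group
  have hεγ : ε γI = ε δ ^ q := hT4 δ γI hconj
  have hrel : D.s γ (D.s σ G) = D.s σ (D.s δ G) := by
    have h1 : γ * σ = σ * δ := by
      show γ * σ = σ * (σ⁻¹ * γ * σ)
      group
    calc D.s γ (D.s σ G) = D.s (γ * σ) G := by rw [map_mul]; rfl
      _ = D.s (σ * δ) G := by rw [h1]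
      _ = D.s σ (D.s δ G) := by rw [map_mul]; rfl
  -- `s γ ω = ρ ω`
  have hωγ : D.s γ ω ^ ℓ = ω ^ ℓ := by
    rw [← map_pow, hω, D.s_ι, hxc]
  obtain ⟨ρ, hρ, hρ'⟩ := D.root_unity hℓ (hξ.pow hN (Nat.div_mul_cancel hℓN).symm) hω0 hωγ
  -- compare
  have hL : D.s γ (D.s σ G) =
      D.ι (D.aE γ u * h γI) * D.ι (D.cst (η * ε γI * ρ)) * (G * ω) := by
    rw [hη', map_mul, map_mul, map_mul, D.s_ι, D.s_ι, D.aE_cst, hI γ hγI _ hη, hρ']
    have h1 : D.s γ G = D.ι (h γI) * D.ι (D.cst (ε γI)) * G := hs γI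
    rw [h1]
    simp only [map_mul]
    ring
  have hR : D.s σ (D.s δ G) =
      D.ι (D.aE σ (h δ) * u) * D.ι (D.cst (ε δ ^ q * η)) * (G * ω) := by
    rw [hs δ, map_mul, map_mul, D.s_ι, D.s_ι, D.aE_cst, hσ _ (hε δ), hη']
    simp only [map_mul]
    ring
  rw [hL, hR] at hrel
  have hfin := D.eq_of_const (e := 0) (by rw [map_mul, D.lc_aE, hu, hh, map_one, one_mul])
    (by rw [map_mul, D.lc_aE, hh, hu, map_one, one_mul]) (mul_ne_zero hG0 hω0) hrel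
  rw [hεγ] at hfin
  have hρ1 : ρ = 1 := by
    have h1 : η * ε δ ^ q * ρ = η * ε δ ^ q * 1 := by rw [hfin]; ring
    exact mul_left_cancel₀ (mul_ne_zero hη0 (pow_ne_zero _ (hε0 δ))) h1
  rw [hρ', hρ1, map_one, map_one, one_mul]

end ThetaData

end Pool.Agent.SB
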