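import Pool.Agent.Helper35.SN.SecZ
import Pool.Agent.Helper35.SN.Theta
import Pool.Agent.Helper12.SN.LcE

set_option autoImplicit false

/-!
# PROJECT SB, block N, part D: the theta data of a section (SB-N-D03)

`Γ = F.fixingSubgroup`, `W = kbar`, `E = FractionRing (RR ℓ c)`, `Z = etField (xring)`.
`cst = (algebraMap (RR ℓ c) E).comp con`; `ι` = the extension to `E` of
`r ↦ ⟨evW r, evW_mem_Z⟩` (injective: `evW_injective`; `IsFractionRing.lift`); `lc = lcE ℓ c E`;
`aW γ` = `γ` as a ring automorphism of `kbar`; `aE γ = fE E (RR.mapEquiv γ)` (a homomorphism in `γ`: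
`IsFractionRing` extensionality and `mapEquiv_ap`); `s γ` as a ring automorphism of `Z`.
`aE_cst`: `fE_algebraMap`, `mapEquiv_ap`, `con_ap`; `lc_aE`: `lcE_mapEquiv`; `s_ι`: `sec_evW`.
-/

open Polynomial IntermediateField

namespace Pool.Agent.SB

open Pool.Agent.Helper12.SN

section gen

variable {R : Type} [CommRing R] [IsDomain R] {E : Type} [Field E] [Algebra R E]
  [IsFractionRing R E]

omit [IsDomain R] in
private theorem tdata_ext {Z : Type} [Field Z] (f g : E →+* Z)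
    (h : ∀ r : R, f (algebraMap R E r) = g (algebraMap R E r)) (e : E) : f e = g e := by
  obtain ⟨a, b, -, rfl⟩ := IsFractionRing.div_surjective (A := R) e
  rw [map_div₀, map_div₀, h, h]

end gen

section fE

variable {R : Type} [CommRing R] [IsDedekindDomain R] {E : Type} [Field E] [Algebra R E]
  [IsFractionRing R E]

private theorem tdata_one (g : R ≃+* R) (h : ∀ r, g r = r) : fE E g = 1 := by
  ext e
  refine tdata_ext (R := R) ((fE E g : E ≃+* E) : E →+* E) (RingHom.id E) ?_ e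
  intro r
  exact (fE_algebraMap g r).trans (congrArg (algebraMap R E) (h r))

private theorem tdata_mul (g g₁ g₂ : R ≃+* R) (h : ∀ r, g r = g₁ (g₂ r)) :
    fE E g = fE E g₁ * fE E g₂ := by
  ext e
  refine tdata_ext (R := R) ((fE E g : E ≃+* E) : E →+* E)
    (((fE E g₁ : E ≃+* E) : E →+* E).comp ((fE E g₂ : E ≃+* E) : E →+* E)) ?_ e
  intro r
  refine (fE_algebraMap g r).trans ?_
  change _ = fE E g₁ (fE E g₂ (algebraMap R E r))
  rw [fE_algebraMap, fE_algebraMap, h]

end fE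

section act

variable {f : Type} [Field f] {ℓ : ℕ} [Fact ℓ.Prime] {c : Fin 3 → f} [Good ℓ c]

/-- the action on the function field -/
private noncomputable def tdataE {Γ : Type} [Group Γ] (a : Γ →* (f ≃+* f))
    (h : ∀ γ i, a γ (c i) = c i) :
    Γ →* (FractionRing (RR ℓ c) ≃+* FractionRing (RR ℓ c)) where
  toFun γ := fE (FractionRing (RR ℓ c)) (RR.mapEquiv (a γ) (h γ) : RR ℓ c ≃+* RR ℓ c)
  map_one' := by
    refine tdata_one _ fun r => ?_
    ext1 j
    rw [mapEquiv_ap, map_one]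
    exact Polynomial.map_id
  map_mul' γ δ := by
    refine tdata_mul _ _ _ fun r => ?_
    ext1 j
    rw [mapEquiv_ap, mapEquiv_ap, mapEquiv_ap, Polynomial.map_map, map_mul]
    rfl

private theorem tdata_cst (φ : f ≃+* f) (h : ∀ i, φ (c i) = c i) (w : f) :
    fE (FractionRing (RR ℓ c)) (RR.mapEquiv φ h : RR ℓ c ≃+* RR ℓ c)
      (algebraMap (RR ℓ c) (FractionRing (RR ℓ c)) (con w)) =
      algebraMap (RR ℓ c) (FractionRing (RR ℓ c)) (con (φ w)) := by
  rw [fE_algebraMap]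
  congr 1
  ext1 j
  rw [mapEquiv_ap, con_ap, con_ap]
  split_ifs
  · exact Polynomial.map_C _
  · exact Polynomial.map_zero _

end act

variable {k : Type} [Field k] [CharZero k] {Ω : Type} [Field Ω] [Algebra k Ω] [IsAlgClosed Ω]
  {ℓ : ℕ} [Fact ℓ.Prime] {c : Fin 3 → kbar k Ω} [Good ℓ c] {x y : Ω}
  (h : y ^ ℓ * (x - (c 1 : Ω)) = (x - (c 0 : Ω)) * (x - (c 2 : Ω)))

theorem exists_thetaData (k1 : IntermediateField k (kbar k Ω)) (hc : ∀ i, c i ∈ k1)
    (hx : Transcendental k x) {D : Subgroup (kbar k Ω ≃ₐ[k] kbar k Ω)}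
    (s : D →* (etField k (xring k k1 x c) ≃ₐ[k] etField k (xring k k1 x c)))
    (hs : IsSec k D (etField k (xring k k1 x c)) s)
    (hxy : ∀ (γ : D) (θ : etField k (xring k k1 x c)), ((θ : Ω) = x ∨ (θ : Ω) = y) → s γ θ = θ)
    (hD : ∀ (γ : D) (i : Fin 3),
      ((γ : kbar k Ω ≃ₐ[k] kbar k Ω) : kbar k Ω ≃+* kbar k Ω) (c i) = c i) :
    ∃ T : ThetaData D (kbar k Ω) (FractionRing (RR ℓ c)) (etField k (xring k k1 x c)),
      (∀ r : RR ℓ c, ((T.ι (algebraMap (RR ℓ c) (FractionRing (RR ℓ c)) r) :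
        etField k (xring k k1 x c)) : Ω) = evW c x y h r) ∧
      (∀ e, T.lc e = lcE ℓ c (FractionRing (RR ℓ c)) e) ∧
      (∀ (γ : D) (w : kbar k Ω), T.aW γ w = (γ : kbar k Ω ≃ₐ[k] kbar k Ω) w) ∧
      (∀ (γ : D), T.aE γ = fE (FractionRing (RR ℓ c))
        (RR.mapEquiv ((γ : kbar k Ω ≃ₐ[k] kbar k Ω) : kbar k Ω ≃+* kbar k Ω) (hD γ) :
          RR ℓ c ≃+* RR ℓ c)) ∧
      (∀ (γ : D) (θ : etField k (xring k k1 x c)), T.s γ θ = s γ θ) := by
  let E := FractionRing (RR ℓ c)
  let Z := etField k (xring k k1 x c)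
  let evZ : RR ℓ c →+* Z :=
    { toFun := fun r => ⟨evW c x y h r, evW_mem_Z h k1 hc hx r⟩
      map_one' := Subtype.ext (map_one (evW c x y h))
      map_zero' := Subtype.ext (map_zero (evW c x y h))
      map_add' := fun a b => Subtype.ext (map_add (evW c x y h) a b)
      map_mul' := fun a b => Subtype.ext (map_mul (evW c x y h) a b) }
  have hinj : Function.Injective evZ := fun a b hab =>
    evW_injective h hx (congrArg Subtype.val hab)
  let ι : E →+* Z := IsFractionRing.lift hinj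
  have hι : ∀ r, ι (algebraMap (RR ℓ c) E r) = evZ r := fun r =>
    IsFractionRing.lift_algebraMap hinj r
  let aW : D →* (kbar k Ω ≃+* kbar k Ω) :=
    { toFun := fun γ => ((γ : kbar k Ω ≃ₐ[k] kbar k Ω) : kbar k Ω ≃+* kbar k Ω)
      map_one' := rfl
      map_mul' := fun _ _ => rfl }
  let sZ : D →* (Z ≃+* Z) :=
    { toFun := fun γ => ((s γ : Z ≃ₐ[k] Z) : Z ≃+* Z)
      map_one' := by rw [map_one]; rfl
      map_mul' := fun a b => by rw [map_mul]; rfl }
  let aE : D →* (E ≃+* E) := tdataE aW hD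
  have hs_ι : ∀ (γ : D) (e : E), sZ γ (ι e) = ι (aE γ e) := by
    intro γ e
    refine tdata_ext (R := RR ℓ c) (((sZ γ : Z ≃+* Z) : Z →+* Z).comp ι)
      (ι.comp ((aE γ : E ≃+* E) : E →+* E)) ?_ e
    intro r
    change sZ γ (ι (algebraMap (RR ℓ c) E r)) = ι (fE E (RR.mapEquiv (aW γ) (hD γ) :
      RR ℓ c ≃+* RR ℓ c) (algebraMap (RR ℓ c) E r))
    rw [fE_algebraMap, hι, hι]
    exact Subtype.ext (sec_evW h k1 hc hx s hs hxy γ (hD γ) r)
  refine ⟨{ cst := (algebraMap (RR ℓ c) E).comp con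
            ι := ι
            lc := lcE ℓ c E
            aW := aW
            aE := aE
            s := sZ
            lc_cst := fun w => (lcE_algebraMap ℓ c E (con w)).trans (lc_con w)
            aE_cst := fun γ w => tdata_cst (aW γ) (hD γ) w
            lc_aE := fun γ e => lcE_mapEquiv ℓ c (aW γ) (hD γ) e
            s_ι := hs_ι }, ?_, fun _ => rfl, fun _ _ => rfl, fun _ => rfl, fun _ _ => rfl⟩
  intro r
  exact congrArg Subtype.val (hι r)

end Pool.Agent.SB
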