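import Pool.Agent.Helper35.SN.Stable

set_option autoImplicit false

/-!
# PROJECT SB, block N, part C: Hilbert 90 for a class fixed by `Φ` (SB-N-C05)

`Tw J h` : `Φ J = h J` as subsets of `E`.
1. `tw_unit` : `u J = J` for `u ≠ 0` implies `u` constant (`u` and `u⁻¹` are integral over `O`:
   `J` is finitely generated and faithful, `isIntegral_of_smul_mem_submodule`; then `intcl`,
   `units`).
2. `tw_norm` : `Tw J h`, `h ≠ 0`: after multiplying by a constant `lc h = 1` (`a J = J` for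
   `a ∈ f^*`).
3. `tw_iter` : `Φ^[n] J = (∏_{i < n} Φ^[i] h) J`.
4. `J` is finitely generated, so `Φ^[n] J = J` for some `n > 0` (`exists_iter_finset`), so
   `∏_{i < n} Φ^[i] h` is a constant with `lc = 1`, so it is `1`; and `Φ^[n] h = h`, as
   `Φ (Φ^[n] J) = h J` and `Φ^[n] (Φ J) = Φ^[n] (h) J`: the quotient is a constant with `lc = 1`.
5. `hilbert` : `h ≠ 0`, `∏_{i < n} Φ^[i] h = 1`; for `u : f` with `u ^ (q ^ n) = u` put
   `g = ∑_{i < n} u ^ (q ^ i) • ∏_{j < i} Φ^[j] h`; then `h * Φ g = g`, and `g ≠ 0` for some `u` by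
   `moore` with `N = ⊥` (`e 0 = 1`).
6. multiply `g` by a `Φ`-fixed denominator (`exists_fixed_mul`): `g ∈ O`; `J' = g J`.
-/

open Polynomial

namespace Pool.Agent.SB.FD

variable {f E : Type} [Field f] [IsAlgClosed f] [Field E] [Algebra f E] {O : Subalgebra f E}
  {q ℓ : ℕ}

namespace Data

variable (D : Data f E O q ℓ)

include D in
theorem tw_unit [IsNoetherianRing O] (J : Ideal O) (hJ : J ≠ ⊥) (u : E) (hu : u ≠ 0)
    (h : ∀ z : E, (∃ j ∈ J, u * (j : E) = z) ↔ ∃ j ∈ J, (j : E) = z) :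
    ∃ a : f, u = algebraMap f E a := by
  obtain ⟨N, hN⟩ : ∃ N : Submodule O E, N = Submodule.map (Algebra.linearMap O E) J := ⟨_, rfl⟩
  have hmem : ∀ z : E, z ∈ N ↔ ∃ j ∈ J, (j : E) = z := by
    intro z
    rw [hN, Submodule.mem_map]
    rfl
  have hfg : N.FG := by
    rw [hN]
    exact (IsNoetherian.noetherian J).map _
  have hbot : N ≠ ⊥ := by
    intro hb
    apply hJ
    rw [eq_bot_iff]
    intro j hj
    have h1 : (j : E) ∈ N := (hmem _).2 ⟨j, hj, rfl⟩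
    rw [hb, Submodule.mem_bot] at h1
    rw [Submodule.mem_bot]
    exact Subtype.ext h1
  have hu1 : IsIntegral O u := by
    refine isIntegral_of_smul_mem_submodule N hbot hfg u ?_
    intro z hz
    obtain ⟨j, hj, rfl⟩ := (hmem _).1 hz
    exact (hmem _).2 ((h _).1 ⟨j, hj, rfl⟩)
  have hu2 : IsIntegral O u⁻¹ := by
    refine isIntegral_of_smul_mem_submodule N hbot hfg u⁻¹ ?_
    intro z hz
    obtain ⟨j, hj, h1⟩ := (h z).2 ((hmem _).1 hz)
    rw [smul_eq_mul, ← h1, inv_mul_cancel_left₀ hu]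
    exact (hmem _).2 ⟨j, hj, rfl⟩
  exact D.units u hu (D.intcl u hu1) (D.intcl _ hu2)

private theorem tw_smul_mem (J : Ideal O) (a : f) {j : O} (hj : j ∈ J) :
    ∃ j' ∈ J, (j' : E) = algebraMap f E a * (j : E) :=
  ⟨algebraMap f O a * j, J.mul_mem_left _ hj, rfl⟩

theorem tw_norm (J : Ideal O) (h : E) (h0 : h ≠ 0) (hh : D.Tw J h) :
    ∃ h' : E, h' ≠ 0 ∧ D.lc h' = 1 ∧ D.Tw J h' := by
  have hl : D.lc h ≠ 0 := (_root_.map_ne_zero D.lc).2 h0
  have ha : algebraMap f E (D.lc h)⁻¹ ≠ 0 := (_root_.map_ne_zero _).2 (inv_ne_zero hl)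
  refine ⟨algebraMap f E (D.lc h)⁻¹ * h, mul_ne_zero ha h0, ?_, ?_⟩
  · rw [map_mul, D.lc_const, inv_mul_cancel₀ hl]
  · intro z
    rw [hh z]
    constructor
    · rintro ⟨j, hj, rfl⟩
      obtain ⟨j', hj', h1⟩ := tw_smul_mem J (D.lc h) hj
      refine ⟨j', hj', ?_⟩
      rw [h1, map_inv₀]
      have h2 : algebraMap f E (D.lc h) ≠ 0 := (_root_.map_ne_zero _).2 hl
      field_simp
    · rintro ⟨j, hj, rfl⟩
      obtain ⟨j', hj', h1⟩ := tw_smul_mem J (D.lc h)⁻¹ hj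
      refine ⟨j', hj', ?_⟩
      rw [h1]
      ring

theorem tw_iter (J : Ideal O) (h : E) (hh : D.Tw J h) (n : ℕ) (z : E) :
    (∃ j ∈ J, (⇑D.Φ)^[n] (j : E) = z) ↔
      ∃ j ∈ J, (∏ i ∈ Finset.range n, (⇑D.Φ)^[i] h) * (j : E) = z := by
  induction n generalizing z with
  | zero =>
    constructor
    · rintro ⟨j, hj, rfl⟩
      exact ⟨j, hj, by simp⟩
    · rintro ⟨j, hj, rfl⟩
      exact ⟨j, hj, by simp⟩
  | succ n ih =>
    rw [Finset.prod_range_succ]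
    constructor
    · rintro ⟨j, hj, rfl⟩
      obtain ⟨j', hj', h1⟩ := (hh _).1 ⟨j, hj, rfl⟩
      obtain ⟨j'', hj'', h2⟩ := (ih _).1 ⟨j', hj', rfl⟩
      refine ⟨j'', hj'', ?_⟩
      rw [Function.iterate_succ_apply, ← h1, iterate_map_mul, ← h2]
      ring
    · rintro ⟨j'', hj'', rfl⟩
      obtain ⟨j', hj', h2⟩ := (ih _).2 ⟨j'', hj'', rfl⟩
      obtain ⟨j, hj, h1⟩ := (hh _).2 ⟨j', hj', rfl⟩
      refine ⟨j, hj, ?_⟩
      rw [Function.iterate_succ_apply, h1, iterate_map_mul, h2]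
      ring

private theorem tw_iter_mem (n : ℕ) {z : E} (hz : z ∈ O) : (⇑D.Φ)^[n] z ∈ O := by
  induction n with
  | zero => exact hz
  | succ n ih =>
    rw [Function.iterate_succ_apply']
    exact D.Φ_mem ih

private theorem tw_iter_symm_mem (n : ℕ) {z : E} (hz : z ∈ O) :
    ∃ w ∈ O, (⇑D.Φ)^[n] w = z := by
  induction n with
  | zero => exact ⟨z, hz, rfl⟩
  | succ n ih =>
    obtain ⟨w, hw, h1⟩ := ih
    refine ⟨D.Φ.symm w, D.Φ_symm_mem hw, ?_⟩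
    rw [Function.iterate_succ_apply, D.Φ.apply_symm_apply, h1]

/-- An ideal is stable under an iterate of the Frobenius. -/
private theorem tw_stable [IsNoetherianRing O] (J : Ideal O) :
    ∃ n : ℕ, 0 < n ∧ ∀ z : E, (∃ j ∈ J, (⇑D.Φ)^[n] (j : E) = z) ↔ ∃ j ∈ J, (j : E) = z := by
  classical
  obtain ⟨T, hT⟩ : J.FG := IsNoetherian.noetherian J
  obtain ⟨n, hn, hfix⟩ := D.exists_iter_finset (T.image (fun t : O => (t : E)))
  have hfix' : ∀ t ∈ T, (⇑D.Φ)^[n] (t : E) = t := fun t ht =>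
    hfix _ (Finset.mem_image_of_mem _ ht)
  refine ⟨n, hn, fun z => ?_⟩
  constructor
  · rintro ⟨j, hj, rfl⟩
    rw [← hT] at hj
    refine Submodule.span_induction (p := fun (x : O) _ => ∃ j ∈ J, (j : E) = (⇑D.Φ)^[n] (x : E))
      ?_ ?_ ?_ ?_ hj
    · intro t ht
      exact ⟨t, hT ▸ Ideal.subset_span ht, (hfix' t ht).symm⟩
    · exact ⟨0, J.zero_mem, by simp⟩
    · rintro a b - - ⟨a', ha', h1⟩ ⟨b', hb', h2⟩
      refine ⟨a' + b', J.add_mem ha' hb', ?_⟩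
      show ((a' : E) + (b' : E)) = (⇑D.Φ)^[n] ((a : E) + (b : E))
      rw [iterate_map_add, h1, h2]
    · rintro a b - ⟨b', hb', h2⟩
      refine ⟨⟨(⇑D.Φ)^[n] (a : E), D.tw_iter_mem n a.2⟩ * b', J.mul_mem_left _ hb', ?_⟩
      show (⇑D.Φ)^[n] (a : E) * (b' : E) = (⇑D.Φ)^[n] ((a : E) * (b : E))
      rw [iterate_map_mul, h2]
  · rintro ⟨j, hj, rfl⟩
    rw [← hT] at hj
    refine Submodule.span_induction (p := fun (x : O) _ => ∃ j ∈ J, (⇑D.Φ)^[n] (j : E) = (x : E))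
      ?_ ?_ ?_ ?_ hj
    · intro t ht
      exact ⟨t, hT ▸ Ideal.subset_span ht, hfix' t ht⟩
    · exact ⟨0, J.zero_mem, by simp⟩
    · rintro a b - - ⟨a', ha', h1⟩ ⟨b', hb', h2⟩
      refine ⟨a' + b', J.add_mem ha' hb', ?_⟩
      show (⇑D.Φ)^[n] ((a' : E) + (b' : E)) = (a : E) + (b : E)
      rw [iterate_map_add, h1, h2]
    · rintro a b - ⟨b', hb', h2⟩
      obtain ⟨w, hw, h3⟩ := D.tw_iter_symm_mem n a.2
      refine ⟨⟨w, hw⟩ * b', J.mul_mem_left _ hb', ?_⟩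
      show (⇑D.Φ)^[n] (w * (b' : E)) = (a : E) * (b : E)
      rw [iterate_map_mul, h2, h3]

theorem tw_fin [IsNoetherianRing O] (J : Ideal O) (hJ : J ≠ ⊥) (h : E) (h0 : h ≠ 0)
    (hlc : D.lc h = 1) (hh : D.Tw J h) :
    ∃ n : ℕ, 0 < n ∧ ∏ i ∈ Finset.range n, (⇑D.Φ)^[i] h = 1 := by
  obtain ⟨n, hn, hst⟩ := D.tw_stable J
  refine ⟨n, hn, ?_⟩
  have hne : ∏ i ∈ Finset.range n, (⇑D.Φ)^[i] h ≠ 0 := by
    rw [Finset.prod_ne_zero_iff]
    intro i _ h1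
    have h2 := D.lc_iter i h
    rw [h1, hlc, one_pow, map_zero] at h2
    exact zero_ne_one h2
  obtain ⟨a, ha⟩ := D.tw_unit J hJ _ hne (fun z => by rw [← D.tw_iter J h hh n z, hst z])
  have hl : D.lc (∏ i ∈ Finset.range n, (⇑D.Φ)^[i] h) = 1 := by
    rw [map_prod]
    refine Finset.prod_eq_one fun i _ => ?_
    rw [D.lc_iter, hlc, one_pow]
  rw [ha, D.lc_const] at hl
  rw [ha, hl, map_one]

theorem hilbert (h : E) (h0 : h ≠ 0) (n : ℕ) (hn : 0 < n)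
    (hN : ∏ i ∈ Finset.range n, (⇑D.Φ)^[i] h = 1) : ∃ g : E, g ≠ 0 ∧ h * D.Φ g = g := by
  obtain ⟨e, he⟩ : ∃ e : ℕ → E, e = fun i => ∏ j ∈ Finset.range i, (⇑D.Φ)^[j] h := ⟨_, rfl⟩
  have he0 : e 0 = 1 := by rw [he]; simp
  have hen : e n = 1 := by rw [he]; exact hN
  have hstep : ∀ i, h * D.Φ (e i) = e (i + 1) := by
    intro i
    rw [he]
    show h * D.Φ (∏ j ∈ Finset.range i, (⇑D.Φ)^[j] h) = ∏ j ∈ Finset.range (i + 1), (⇑D.Φ)^[j] h
    rw [Finset.prod_range_succ', map_prod, mul_comm]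
    congr 1
    refine Finset.prod_congr rfl fun j _ => ?_
    rw [Function.iterate_succ_apply']
  by_contra hcon
  have hz : ∀ u : f, u ^ (q ^ n) = u →
      ∑ i ∈ Finset.range n, u ^ (q ^ i) • e i ∈ (⊥ : Submodule f E) := by
    intro u hu
    rw [Submodule.mem_bot]
    by_contra hg
    apply hcon
    refine ⟨_, hg, ?_⟩
    rw [map_sum, Finset.mul_sum]
    have h1 : ∀ i, h * D.Φ (u ^ (q ^ i) • e i) = u ^ (q ^ (i + 1)) • e (i + 1) := by
      intro i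
      rw [Algebra.smul_def, map_mul, D.Φ_f, ← pow_mul, ← pow_succ, ← hstep i, Algebra.smul_def]
      ring
    simp only [h1]
    have h2 := Finset.sum_range_succ (fun i => u ^ (q ^ i) • e i) n
    have h3 := Finset.sum_range_succ' (fun i => u ^ (q ^ i) • e i) n
    rw [h3, hu, hen, he0, pow_zero, pow_one] at h2
    exact add_right_cancel h2
  have h4 := moore q n D.one_lt D.q_zero hn ⊥ e hz
  rw [he0, Submodule.mem_bot] at h4
  exact one_ne_zero h4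

/-- the class of `J` contains a `Φ`-stable ideal -/
theorem exists_stable [IsNoetherianRing O] (J : Ideal O) (hJ : J ≠ ⊥) (h : E) (h0 : h ≠ 0)
    (hh : D.Tw J h) :
    ∃ J' : Ideal O, J' ≠ ⊥ ∧ (∀ z : E, (∃ j ∈ J', D.Φ (j : E) = z) ↔ ∃ j ∈ J', (j : E) = z) ∧
      ∃ a : O, a ≠ 0 ∧ J' = Ideal.span {a} * J := by
  obtain ⟨h', h0', hlc, hh'⟩ := D.tw_norm J h h0 hh
  obtain ⟨n, hn, hN⟩ := D.tw_fin J hJ h' h0' hlc hh'
  obtain ⟨g, hg0, hg⟩ := D.hilbert h' h0' n hn hN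
  obtain ⟨a0, ha0, d0, hd0, hd0', hgd⟩ := D.frac g
  obtain ⟨d', hd', hd'0, hS⟩ := D.exists_fixed_mul d0 hd0 hd0'
  obtain ⟨s, hs⟩ : ∃ s, s = d0 * d' := ⟨_, rfl⟩
  have hsΦ : D.Φ s = s := by rw [hs]; exact hS.2
  have hs0 : s ≠ 0 := by rw [hs]; exact mul_ne_zero hd0' hd'0
  obtain ⟨a, ha⟩ : ∃ a : O, (a : E) = g * s := by
    refine ⟨⟨a0 * d', mul_mem ha0 hd'⟩, ?_⟩
    show a0 * d' = g * s
    rw [hs, hgd]
    field_simp
  have haE : (a : E) ≠ 0 := by rw [ha]; exact mul_ne_zero hg0 hs0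
  have haO : a ≠ 0 := fun h1 => haE (by rw [h1]; rfl)
  have hΦa : D.Φ (a : E) * h' = a := by
    rw [ha, map_mul, hsΦ]
    linear_combination s * hg
  refine ⟨Ideal.span {a} * J, ?_, ?_, a, haO, rfl⟩
  · intro hb
    apply hJ
    rw [eq_bot_iff]
    intro j hj
    have h1 : a * j ∈ Ideal.span {a} * J := Ideal.mem_span_singleton_mul.2 ⟨j, hj, rfl⟩
    rw [hb, Submodule.mem_bot] at h1
    rw [Submodule.mem_bot]
    exact (mul_eq_zero.1 h1).resolve_left haO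
  · intro z
    constructor
    · rintro ⟨j', hj', rfl⟩
      obtain ⟨j, hj, rfl⟩ := Ideal.mem_span_singleton_mul.1 hj'
      obtain ⟨j1, hj1, h1⟩ := (hh' _).1 ⟨j, hj, rfl⟩
      refine ⟨a * j1, Ideal.mem_span_singleton_mul.2 ⟨j1, hj1, rfl⟩, ?_⟩
      show (a : E) * (j1 : E) = D.Φ ((a : E) * (j : E))
      rw [map_mul, ← h1]
      linear_combination (-(j1 : E)) * hΦa
    · rintro ⟨j', hj', rfl⟩
      obtain ⟨j1, hj1, rfl⟩ := Ideal.mem_span_singleton_mul.1 hj'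
      obtain ⟨j, hj, h1⟩ := (hh' _).2 ⟨j1, hj1, rfl⟩
      refine ⟨a * j, Ideal.mem_span_singleton_mul.2 ⟨j, hj, rfl⟩, ?_⟩
      show D.Φ ((a : E) * (j : E)) = (a : E) * (j1 : E)
      rw [map_mul, h1]
      linear_combination (j1 : E) * hΦa

end Data

end Pool.Agent.SB.FD
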