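import Pool.Agent.Helper35.SN.Prim
import Pool.Agent.Helper35.SN.TData
import Pool.Agent.Helper12.SN.Jac

set_option autoImplicit false

/-!
# PROJECT SB, block N, part D: from classes to the section
-/

open Polynomial IntermediateField

namespace Pool.Agent.SB

open Pool.Agent.Helper12.SN

section tw

variable {ℓ : ℕ} [Fact ℓ.Prime] {W : Type} [Field W] [IsAlgClosed W] {c : Fin 3 → W} [Good ℓ c]
  (E : Type) [Field E] [Algebra (RR ℓ c) E] [IsFractionRing (RR ℓ c) E]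

theorem ideal_map_pow {R : Type} [CommRing R] (g : R ≃+* R) (I : Ideal R) (N : ℕ) :
    (I.map g) ^ N = (I ^ N).map g := (Ideal.map_pow g I N).symm

theorem lc_mapEquiv (τ : W ≃+* W) (hτ : ∀ i, τ (c i) = c i) (r : RR ℓ c) :
    lc ((RR.mapEquiv τ hτ : RR ℓ c ≃+* RR ℓ c) r) = τ (lc r) := by
  have h1 : (RR.mapEquiv τ hτ : RR ℓ c ≃+* RR ℓ c) r = RR.map (τ : W →+* W) hτ r := rfl
  rw [h1, lc_map (τ : W →+* W) τ.injective hτ]
  rfl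

/-- powers of a twist, normalised -/
theorem twist_pow {J K : Ideal (RR ℓ c)} (hJ : J ≠ ⊥) (hK : K ≠ ⊥) (N : ℕ)
    {g κ : RR ℓ c} (hg0 : g ≠ 0) (hκ0 : κ ≠ 0) (hg : J ^ N = Ideal.span {g})
    (hκ : K ^ N = Ideal.span {κ}) (hg1 : lc g = 1) (hκ1 : lc κ = 1)
    (τ : W ≃+* W) (hτ : ∀ i, τ (c i) = c i)
    (hcl : clm (RR.mapEquiv τ hτ : RR ℓ c ≃+* RR ℓ c) (cl J) = cl J * cl K) :
    ∃ u : E, lcE ℓ c E u = 1 ∧
      fE E (RR.mapEquiv τ hτ : RR ℓ c ≃+* RR ℓ c) (algebraMap (RR ℓ c) E g) =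
        u ^ N * (algebraMap (RR ℓ c) E g * algebraMap (RR ℓ c) E κ) := by
  have hinj : Function.Injective (algebraMap (RR ℓ c) E) := IsFractionRing.injective _ _
  set m : RR ℓ c ≃+* RR ℓ c := RR.mapEquiv τ hτ with hm
  have hJm : J.map m ≠ ⊥ := map_ne_bot m hJ
  have hJK : J * K ≠ ⊥ := mul_ne_zero hJ hK
  rw [clm_cl m hJ, ← cl_mul hJ hK] at hcl
  obtain ⟨u, hu0, hu1, hu⟩ := exists_tw_lc (E := E) hJK hJm hcl.symm
  refine ⟨u, hu1, ?_⟩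
  have h1 := tw_pow hu N
  rw [mul_pow, hg, hκ, ideal_map_pow, hg, Ideal.map_span, Set.image_singleton,
    Ideal.span_singleton_mul_span_singleton] at h1
  have hgκ : g * κ ≠ 0 := mul_ne_zero hg0 hκ0
  have hmg : m g ≠ 0 := fun h0 => hg0 (m.injective (by rw [h0, map_zero]))
  have h2 : Tw (Ideal.span {g * κ}) (Ideal.span {m g})
      (algebraMap (RR ℓ c) E (m g) / algebraMap (RR ℓ c) E (g * κ)) := by
    rw [tw_iff _ _ _ _ hgκ]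
    exact mul_comm _ _
  have hlc1 : lcE ℓ c E (u ^ N) = 1 := by rw [map_pow, hu1, one_pow]
  have hlc2 : lcE ℓ c E (algebraMap (RR ℓ c) E (m g) / algebraMap (RR ℓ c) E (g * κ)) = 1 := by
    rw [map_div₀, lcE_algebraMap, lcE_algebraMap, lc_mul, hg1, hκ1, hm, lc_mapEquiv, hg1, map_one]
    simp
  have h3 := tw_lc_unique (ℓ := ℓ) (c := c) (E := E)
    (show Ideal.span {m g} ≠ ⊥ by
      rw [Ne, Ideal.span_singleton_eq_bot]
      exact hmg) h1 h2 hlc1 hlc2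
  have h4 : algebraMap (RR ℓ c) E (g * κ) ≠ 0 := by
    rw [Ne, map_eq_zero_iff _ hinj]
    exact hgκ
  rw [fE_algebraMap, h3, ← map_mul, div_mul_cancel₀ _ h4]

/-- a normalised generator of a power of an ideal whose class is killed -/
theorem exists_gen {J : Ideal (RR ℓ c)} (hJ : J ≠ ⊥) (N : ℕ) (h : cl J ^ N = 1) :
    ∃ g : RR ℓ c, g ≠ 0 ∧ lc g = 1 ∧ J ^ N = Ideal.span {g} := by
  rw [← cl_pow hJ, cl_eq_one_iff (pow_ne_zero N hJ)] at h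
  obtain ⟨g, hg, hg'⟩ := h
  have hlc : lc g ≠ 0 := lc_ne_zero hg
  have hu : IsUnit (con (lc g)⁻¹ : RR ℓ c) := (IsUnit.mk0 _ (inv_ne_zero hlc)).map con
  refine ⟨con (lc g)⁻¹ * g, mul_ne_zero hu.ne_zero hg, ?_, ?_⟩
  · rw [lc_mul, lc_con, inv_mul_cancel₀ hlc]
  · rw [hg', Ideal.span_singleton_mul_left_unit hu]

end tw

section core

variable {k : Type} [Field k] [CharZero k] {Ω : Type} [Field Ω] [Algebra k Ω] [IsAlgClosed Ω]
  [IsAlgClosed (kbar k Ω)]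
  {ℓ : ℕ} [Fact ℓ.Prime] {c : Fin 3 → kbar k Ω} [Good ℓ c] {x y : Ω}

theorem weight_core (h : y ^ ℓ * (x - (c 1 : Ω)) = (x - (c 0 : Ω)) * (x - (c 2 : Ω)))
    (k1 : IntermediateField k (kbar k Ω)) [FiniteDimensional k k1]
    (ζ : kbar k Ω) (hζ : IsPrimitiveRoot ζ ℓ) (hζ1 : ζ ∈ k1) (hc : ∀ i, c i ∈ k1)
    (hx : Transcendental k x) {D : Subgroup (kbar k Ω ≃ₐ[k] kbar k Ω)}
    (s : D →* (etField k (xring k k1 x c) ≃ₐ[k] etField k (xring k k1 x c)))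
    (hs : IsSec k D (etField k (xring k k1 x c)) s)
    (hxy : ∀ (γ : D) (θ : etField k (xring k k1 x c)), ((θ : Ω) = x ∨ (θ : Ω) = y) → s γ θ = θ)
    (hD : ∀ (γ : D) (i : Fin 3),
      ((γ : kbar k Ω ≃ₐ[k] kbar k Ω) : kbar k Ω ≃+* kbar k Ω) (c i) = c i)
    (I : Subgroup D) (σ : D) (q : ℕ)
    (hI : ∀ γ ∈ I, ∀ (n : ℕ) (z : kbar k Ω), z ^ (ℓ ^ n) = 1 →
      (γ : kbar k Ω ≃ₐ[k] kbar k Ω) z = z)
    (hσ : ∀ (n : ℕ) (z : kbar k Ω), z ^ (ℓ ^ n) = 1 → (σ : kbar k Ω ≃ₐ[k] kbar k Ω) z = z ^ q)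
    (hnorm : ∀ γ ∈ I, σ⁻¹ * γ * σ ∈ I)
    (htriv : ∀ γ ∈ I, ∀ B ∈ primPart (pi1 ζ hζ.pow_eq_one : ClassGroup (RR ℓ c) →* _),
      clm (RR.mapEquiv ((γ : kbar k Ω ≃ₐ[k] kbar k Ω) : kbar k Ω ≃+* kbar k Ω) (hD γ) :
        RR ℓ c ≃+* RR ℓ c) B = B)
    (i : Fin 3)
    (hB : ∃ B ∈ primPart (pi1 ζ hζ.pow_eq_one : ClassGroup (RR ℓ c) →* _),
      clm (RR.mapEquiv ((σ : kbar k Ω ≃ₐ[k] kbar k Ω) : kbar k Ω ≃+* kbar k Ω) (hD σ) :
        RR ℓ c ≃+* RR ℓ c) B = B * cl (pp c i))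
    (T4 : ∀ (n : ℕ) (G : etField k (xring k k1 x c)) (ε : I → kbar k Ω),
      (∀ γ, ε γ ^ (ℓ ^ n) = 1) → (∀ γ δ, ε (γ * δ) = ε γ * ε δ) →
      (∀ γ : I, s γ G = G → ε γ = 1) →
      ∀ γ γ' : I, (γ' : D) = σ * γ * σ⁻¹ → ε γ' = ε γ ^ q)
    (ω : etField k (xring k k1 x c)) (hω : (ω : Ω) ^ ℓ = x - (c i : Ω))
    (γ : D) (hγ : γ ∈ I) : s γ ω = ω := by
  obtain ⟨T, hTι, hTlc, hTW, hTE, hTs⟩ := exists_thetaData h k1 hc hx s hs hxy hD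
  set E := FractionRing (RR ℓ c) with hE
  have hℓ : ℓ.Prime := Fact.out
  obtain ⟨B, hB, hσB⟩ := hB
  obtain ⟨n, hn⟩ := hB
  have hBpow : B ^ (ℓ ^ (n + 1)) = 1 := by
    rw [pow_succ, pow_mul, pow_ell_of_pi1 hζ B n hn, one_pow]
  obtain ⟨J, hJ, rfl⟩ := cl_surj B
  set N := ℓ ^ (n + 1) with hN
  have hN0 : 0 < N := pow_pos hℓ.pos _
  obtain ⟨g, hg0, hg1, hg⟩ := exists_gen hJ N hBpow
  -- the root `G`
  obtain ⟨θ, hθ⟩ := IsAlgClosed.exists_pow_nat_eq (evW c x y h g) hN0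
  have hθZ := kummer_Z h k1 ζ hζ hζ1 hc hx N hN0 J g hg0 hg θ hθ
  -- `x - c i`
  set κ0 : RR ℓ c := algebraMap _ (RR ℓ c) (X - C (c i)) with hκ0
  have hlcκ0 : lc κ0 = 1 := by rw [hκ0, lc_algebraMap, leadingCoeff_X_sub_C]
  have hκ0ne : κ0 ≠ 0 := by
    intro h0
    rw [h0, lc_zero] at hlcκ0
    exact zero_ne_one hlcκ0
  have hppne : (pp c i : Ideal (RR ℓ c)) ≠ ⊥ := ne_bot_of_isMaximal (pp_isMaximal i)
  have hppN : (pp c i : Ideal (RR ℓ c)) ^ N = Ideal.span {κ0 ^ (ℓ ^ n)} := by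
    rw [hN, pow_succ', pow_mul, pp_pow, Ideal.span_singleton_pow]
  -- the twists
  have htw : ∀ γ : D, γ ∈ I → ∃ u : E, T.lc u = 1 ∧
      T.aE γ (algebraMap (RR ℓ c) E g) = u ^ N * algebraMap (RR ℓ c) E g := by
    intro γ hγ
    have h1 := htriv γ hγ (cl J) ⟨n, hn⟩
    obtain ⟨u, hu, hu'⟩ := twist_pow E hJ (K := ⊤) top_ne_bot N hg0 (one_ne_zero (α := RR ℓ c))
      hg (by rw [← Ideal.one_eq_top, one_pow, Ideal.one_eq_top, Ideal.span_singleton_one]) hg1 lc_one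
      ((γ : kbar k Ω ≃ₐ[k] kbar k Ω) : kbar k Ω ≃+* kbar k Ω) (hD γ)
      (by rw [h1, cl_top, mul_one])
    refine ⟨u, by rw [hTlc, hu], ?_⟩
    rw [hTE, hu', map_one, mul_one]
  obtain ⟨u, hu, hu'⟩ := twist_pow E hJ hppne N hg0 (pow_ne_zero (ℓ ^ n) hκ0ne) hg hppN hg1
    (by
      have : ∀ m, lc (κ0 ^ m) = 1 := by
        intro m
        induction m with
        | zero => rw [pow_zero, lc_one]
        | succ m ih => rw [pow_succ, lc_mul, ih, hlcκ0, one_mul]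
      exact this _)
    ((σ : kbar k Ω ≃ₐ[k] kbar k Ω) : kbar k Ω ≃+* kbar k Ω) (hD σ) hσB
  -- `ι`
  have hι : ∀ r : RR ℓ c, T.ι (algebraMap (RR ℓ c) E r) =
      ⟨evW c x y h r, by rw [← hTι r]; exact SetLike.coe_mem _⟩ := fun r => Subtype.ext (hTι r)
  have hιG : (⟨θ, hθZ⟩ : etField k (xring k k1 x c)) ^ N = T.ι (algebraMap (RR ℓ c) E g) := by
    apply Subtype.ext
    rw [hTι]
    exact hθ
  have hevκ : evW c x y h κ0 = x - (c i : Ω) := by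
    rw [hκ0, evW_algebraMap]
    simp
  have hωι : ω ^ ℓ = T.ι (algebraMap (RR ℓ c) E κ0) := by
    apply Subtype.ext
    rw [hTι, hevκ]
    exact hω
  have : CharZero (kbar k Ω) := charZero_of_injective_algebraMap (algebraMap k (kbar k Ω)).injective
  have : NeZero (N : kbar k Ω) := ⟨Nat.cast_ne_zero.2 hN0.ne'⟩
  obtain ⟨ξ, hξ⟩ : ∃ ξ : kbar k Ω, IsPrimitiveRoot ξ N := by
    have : NeZero N := ⟨hN0.ne'⟩
    exact HasEnoughRootsOfUnity.exists_primitiveRoot (kbar k Ω) N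
  have hfin := T.theta_core I σ q N ℓ hN0 hℓ.pos (dvd_pow_self ℓ (Nat.succ_ne_zero n)) ξ hξ
    (fun γ hγ z hz => by rw [hTW]; exact hI γ hγ (n + 1) z hz)
    (fun z hz => by rw [hTW]; exact hσ (n + 1) z hz)
    hnorm (algebraMap (RR ℓ c) E g) u ⟨θ, hθZ⟩ ω hιG (by rw [hTlc, lcE_algebraMap, hg1])
    (by rw [hTlc]; exact hu) (algebraMap (RR ℓ c) E κ0) hωι ?_ ?_ ?_ htw ?_ γ hγ
  · rwa [hTs] at hfin
  · -- `γ` fixes `x - c i`
    intro γ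
    rw [hTE, fE_algebraMap]
    congr 1
    refine RR.ext fun j => ?_
    rw [mapEquiv_ap, hκ0, algebraMap_ap]
    split_ifs with hj
    · rw [Polynomial.map_sub, Polynomial.map_X, Polynomial.map_C]
      congr 2
      exact hD γ i
    · exact Polynomial.map_zero _
  · rw [Ne, map_eq_zero_iff _ (IsFractionRing.injective (RR ℓ c) E)]
    exact hκ0ne
  · -- the action of `σ`
    rw [← map_pow, hιG, T.s_ι, hTE, hu', map_mul, map_mul, map_pow, mul_pow, mul_pow, hιG]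
    have h5 : ω ^ N = T.ι (algebraMap (RR ℓ c) E (κ0 ^ (ℓ ^ n))) := by
      rw [hN, pow_succ', pow_mul, hωι, map_pow, map_pow]
    rw [h5]
    ring
  · intro ε h1 h2 h3 γ γ' h4
    exact T4 (n + 1) ⟨θ, hθZ⟩ ε h1 h2 (fun γ hγ => h3 γ (by rw [hTs]; exact hγ)) γ γ' h4

end core

end Pool.Agent.SB
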