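import Pool.Agent.Helper35.SN.WCore
import Pool.Agent.Helper35.SN.ClassThm
import Pool.Agent.Helper87.SN.Export
import Pool.Agent.Helper60.SL.T2F
import Pool.Agent.Helper60.SL.T4
import Pool.Agent.Helper60.SL.InerAct
import Pool.Agent.Helper60.SL.Almost

set_option autoImplicit false

/-!
# PROJECT SB (MP_ad201b_nt), block N: the weight theorem
-/

open Polynomial IntermediateField NumberField IsDedekindDomain IsLocalRing Topology

namespace Pool.Agent.SB

open Pool.Agent.Helper12.SN Pool.Agent.Helper60.SL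

section places

variable {k : Type} [Field k] [NumberField k] {W : Type} [Field W] [Algebra k W]

/-- the exceptional set of places -/
theorem exists_S [Algebra.IsAlgebraic k W] (ℓ : ℕ) (hℓ : ℓ.Prime) (c : Fin 3 → W)
    (hc' : Function.Injective c) :
    ∃ S : Finset (HeightOneSpectrum (𝓞 k)), ∀ v ∉ S,
      ∀ j : W →ₐ[k] AlgebraicClosure (v.adicCompletion k),
        (∀ i, c i ∈ VV j) ∧ (∀ i i', i ≠ i' → c i - c i' ∉ (VV j).nonunits) ∧
          (ℓ : W) ∉ (VV j).nonunits := by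
  classical
  have h1 : ∀ x : W, ∃ S : Finset (HeightOneSpectrum (𝓞 k)), ∀ v ∉ S,
      ∀ j : W →ₐ[k] AlgebraicClosure (v.adicCompletion k), x ≠ 0 → IsUn (VV j) x := by
    intro x
    by_cases hx : x = 0
    · exact ⟨∅, fun _ _ _ h => absurd hx h⟩
    · obtain ⟨S, hS⟩ := almost_unit (k := k) hx
      exact ⟨S, fun v hv j _ => hS v hv j⟩
  choose T hT using h1
  refine ⟨T (ℓ : W) ∪ Finset.univ.biUnion (fun i => T (c i)) ∪
    Finset.univ.biUnion (fun i => Finset.univ.biUnion fun i' => T (c i - c i')), ?_⟩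
  intro v hv j
  simp only [Finset.mem_union, Finset.mem_biUnion, Finset.mem_univ, true_and, not_or,
    not_exists] at hv
  obtain ⟨⟨hv1, hv2⟩, hv3⟩ := hv
  have : CharZero W := charZero_of_injective_algebraMap (algebraMap k W).injective
  refine ⟨fun i => ?_, fun i i' hii => ?_, ?_⟩
  · by_cases hci : c i = 0
    · rw [hci]
      exact (VV j).zero_mem
    · exact (hT _ v (hv2 i) j hci).1
  · exact (hT _ v (hv3 i i') j (sub_ne_zero.2 fun h => hii (hc' h))).2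
  · exact (hT _ v hv1 j (Nat.cast_ne_zero.2 hℓ.ne_zero)).2

theorem p_nonunit {v : HeightOneSpectrum (𝓞 k)}
    (j : W →ₐ[k] AlgebraicClosure (v.adicCompletion k)) {p : ℕ} (hpv : (p : 𝓞 k) ∈ v.asIdeal) :
    (p : W) ∈ (VV j).nonunits := by
  have h1 : v.valuation k (p : k) < 1 := by
    have h2 := (v.valuation_lt_one_iff_mem (K := k) (p : 𝓞 k)).2 hpv
    exact_mod_cast h2
  have h3 := (map_nonunits_VV j (p : k)).2 h1
  rwa [map_natCast] at h3

theorem card_pow [IsAlgClosed W] [Algebra.IsAlgebraic k W] {v : HeightOneSpectrum (𝓞 k)}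
    (j : W →ₐ[k] AlgebraicClosure (v.adicCompletion k)) {F : IntermediateField k W}
    (hF : decField j ≤ F) (hfin : FiniteDimensional (decField j) (extendScalars hF)) {p : ℕ}
    (hp : p.Prime) (hpv : (p : 𝓞 k) ∈ v.asIdeal) :
    ∃ r : ℕ, 0 < r ∧ Nat.card (ResidueField (resF (VV j) F)) = p ^ r := by
  have h1 : Finite (ResidueField (resF (VV j) F)) := (hdvr_F j hF hfin).fin
  have h2 : CharP (ResidueField (resF (VV j) F)) p := char_F j F hp hpv
  have := Fintype.ofFinite (ResidueField (resF (VV j) F))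
  obtain ⟨n, -, hn⟩ := FiniteField.card (ResidueField (resF (VV j) F)) p
  exact ⟨n, n.pos, by rw [Nat.card_eq_fintype_card, hn]⟩

theorem iner_conj_mem {F : IntermediateField k W} {p : ℕ} {σ γ : W ≃ₐ[k] W}
    (hσ : σ ∈ F.fixingSubgroup) (hγ : γ ∈ Iner F p) : σ⁻¹ * γ * σ ∈ Iner F p := by
  refine ⟨mul_mem (mul_mem (inv_mem hσ) hγ.1) hσ, fun z m hm hz => ?_⟩
  rw [AlgEquiv.mul_apply, AlgEquiv.mul_apply, hγ.2 (σ z) m hm (by rw [← map_pow, hz, map_one])]
  exact σ.symm_apply_apply z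

end places

theorem weight (k : Type) [Field k] [NumberField k] {Ω : Type} [Field Ω] [Algebra k Ω]
    [IsAlgClosed Ω] (ℓ : ℕ) (hℓ : ℓ.Prime) (k1 : IntermediateField k (kbar k Ω))
    [FiniteDimensional k k1] (ζ : kbar k Ω) (hζ : IsPrimitiveRoot ζ ℓ) (hζ1 : ζ ∈ k1)
    (c : Fin 3 → kbar k Ω) (hc : ∀ i, c i ∈ k1) (hc' : Function.Injective c) :
    ∃ S : Finset (HeightOneSpectrum (𝓞 k)), ∀ v ∉ S, ∀ (p : ℕ), p.Prime →
      (p : 𝓞 k) ∈ v.asIdeal →
      ∀ (j : kbar k Ω →ₐ[k] AlgebraicClosure (v.adicCompletion k))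
        (F : IntermediateField k (kbar k Ω)) (hF : decField j ≤ F), k1 ≤ F →
        FiniteDimensional (decField j) (extendScalars hF) →
      ∀ (x y : Ω), Transcendental k x →
        y ^ ℓ * (x - (c 1 : Ω)) = (x - (c 0 : Ω)) * (x - (c 2 : Ω)) →
      ∀ (s : F.fixingSubgroup →*
          (etField k (xring k k1 x c) ≃ₐ[k] etField k (xring k k1 x c))),
        IsSec k F.fixingSubgroup (etField k (xring k k1 x c)) s →
        (∀ (γ : F.fixingSubgroup) (θ : etField k (xring k k1 x c)),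
          ((θ : Ω) = x ∨ (θ : Ω) = y) → s γ θ = θ) →
      ∀ (γ : F.fixingSubgroup), (γ : kbar k Ω ≃ₐ[k] kbar k Ω) ∈ Iner F p →
      ∀ (i : Fin 3) (ω : etField k (xring k k1 x c)), (ω : Ω) ^ ℓ = x - (c i : Ω) →
        s γ ω = ω := by
  have : Fact ℓ.Prime := ⟨hℓ⟩
  have : Good ℓ c := ⟨hc', ζ, hζ⟩
  have : IsAlgClosed (kbar k Ω) := IsAlgClosure.isAlgClosed k
  have hcz : CharZero k := inferInstance
  have hczW : CharZero (kbar k Ω) :=
    charZero_of_injective_algebraMap (algebraMap k (kbar k Ω)).injective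
  obtain ⟨S, hS⟩ := exists_S (k := k) (W := kbar k Ω) ℓ hℓ c hc'
  refine ⟨S, ?_⟩
  intro v hv p hp hpv j F hF hk1 hfin x y hx hxy s hs hsxy γ hγ i ω hω
  obtain ⟨hcV, hcc, hℓV⟩ := hS v hv j
  -- the residue characteristic is not `ℓ`
  have hpV := p_nonunit j hpv
  have hpℓ : p ≠ ℓ := by
    rintro rfl
    exact hℓV hpV
  have hpn : ∀ n : ℕ, ¬ p ∣ ℓ ^ n := fun n h =>
    hpℓ ((Nat.prime_dvd_prime_iff_eq hp hℓ).1 (hp.dvd_of_dvd_pow h))
  -- the valuation ring and the reduction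
  set V : ValuationSubring (kbar k Ω) := VV j with hV
  let cV : Fin 3 → V := fun i => ⟨c i, hcV i⟩
  let z : V := ⟨ζ, root_mem_V V hℓ.pos hζ.pow_eq_one⟩
  have hz : IsPrimitiveRoot (z : kbar k Ω) ℓ := hζ
  have hz' : IsPrimitiveRoot (residue V z) ℓ := resid_prim V hℓ hℓV z hz
  have hG1 : Good ℓ (fun i => (cV i : kbar k Ω)) := ⟨hc', ζ, hζ⟩
  have hG2 : Good ℓ (fun i => residue V (cV i)) := by
    refine ⟨?_, residue V z, hz'⟩
    intro i i' h
    by_contra hne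
    exact hcc i i' hne ((resid_eq_iff V (cV i) (cV i')).1 h)
  have hAC : IsAlgClosed (ResidueField V) := resid_algClosed V
  have hred : HasRed V cV z hz hz' := by
    obtain ⟨red, -, h1, h2, h3⟩ := Pool.Agent.SN.exists_red_sub V cV z hz hz'
    exact ⟨red, h1, h2, fun a ha => h3 a ha⟩
  -- Frobenius
  obtain ⟨r, hr, hq⟩ := card_pow j hF hfin hp hpv
  obtain ⟨σ, τ, hστ⟩ := exists_tamePair_F j hF hfin hp hpv
  set q := Nat.card (ResidueField (resF (VV j) F)) with hqdef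
  have hq0 : q ≠ 0 := by
    rw [hq]
    exact pow_ne_zero _ hp.ne_zero
  have hfix : ∀ (δ : F.fixingSubgroup) (a : kbar k Ω), a ∈ k1 →
      (δ : kbar k Ω ≃ₐ[k] kbar k Ω) a = a := fun δ a ha =>
    (IntermediateField.mem_fixingSubgroup_iff F _).1 δ.2 a (hk1 ha)
  have hteich : ∀ a : kbar k Ω, a ∈ V → a ∉ V.nonunits →
      ∃ (N : ℕ) (ζ y : kbar k Ω), ¬ p ∣ N ∧ ζ ^ N = 1 ∧ y ∈ V.nonunits ∧ a = ζ * (1 + y) :=
    fun a h1 h2 => teich_W j hp hpv ⟨h1, h2⟩
  set I : Subgroup F.fixingSubgroup := (Iner F p).subgroupOf F.fixingSubgroup with hI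
  have hmemI : ∀ δ : F.fixingSubgroup, δ ∈ I ↔ (δ : kbar k Ω ≃ₐ[k] kbar k Ω) ∈ Iner F p :=
    fun δ => Subgroup.mem_subgroupOf
  refine weight_core (c := c) hxy k1 ζ hζ hζ1 hc hx s hs hsxy
    (fun δ i => hfix δ _ (hc i)) I σ q ?_ ?_ ?_ ?_ i ?_ ?_ ω hω γ ((hmemI γ).2 hγ)
  · intro δ hδ n a ha
    exact ((hmemI δ).1 hδ).2 a _ (hpn n) ha
  · intro n a ha
    exact hστ.acts a _ (hpn n) ha
  · intro δ hδ
    rw [hmemI]
    exact iner_conj_mem σ.2 ((hmemI δ).1 hδ)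
  · intro δ hδ B hB
    exact iner_thm V cV z hz hz' hred
      ((δ : kbar k Ω ≃ₐ[k] kbar k Ω) : kbar k Ω ≃+* kbar k Ω)
      (fun a => (gal_V j hF hfin δ.2 a).1) (fun i => hfix δ _ (hc i)) (hfix δ _ hζ1)
      (fun a ha => iner_act j hF hfin hp hpv ((hmemI δ).1 hδ) ha) B hB
  · exact class_thm V cV z hz hz' hred hp hr hq hpV hteich
      ((σ : kbar k Ω ≃ₐ[k] kbar k Ω) : kbar k Ω ≃+* kbar k Ω)
      (fun a => (gal_V j hF hfin σ.2 a).1) (fun i => hfix σ _ (hc i)) (hfix σ _ hζ1)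
      (fun a ha => acts_act j hF hfin hp hpv σ.2 hq0 hστ.acts ha) i
  · intro n G ε h1 h2 h3 δ δ' hδ
    have hne : ∀ δ, ε δ ≠ 0 := by
      intro δ h0
      have := h1 δ
      rw [h0, zero_pow (pow_ne_zero _ hℓ.ne_zero)] at this
      exact zero_ne_one this
    let toI : Iner F p → I := fun g => ⟨⟨g, g.2.1⟩, (hmemI _).2 g.2⟩
    have htoI : ∀ g g' : Iner F p, toI (g * g') = toI g * toI g' := fun _ _ => rfl
    let ε' : Iner F p →* rootsOfUnity (ℓ ^ n) (kbar k Ω) :=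
      MonoidHom.mk' (fun g => ⟨Units.mk0 (ε (toI g)) (hne _), by
        rw [mem_rootsOfUnity]
        apply Units.ext
        rw [Units.val_pow_eq_pow_val, Units.val_mk0, h1, Units.val_one]⟩) (by
        intro g g'
        apply Subtype.ext
        apply Units.ext
        show ε (toI (g * g')) = ε (toI g) * ε (toI g')
        rw [htoI, h2])
    have hε' : ∀ g, (((ε' g : rootsOfUnity (ℓ ^ n) (kbar k Ω)) : (kbar k Ω)ˣ) : kbar k Ω) =
        ε (toI g) := fun _ => rfl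
    have hN0 : 0 < ℓ ^ n := pow_pos hℓ.pos n
    have hNZ : NeZero (ℓ ^ n) := ⟨hN0.ne'⟩
    have hcard : ¬ p ∣ Nat.card (rootsOfUnity (ℓ ^ n) (kbar k Ω)) := by
      have : NeZero ((ℓ ^ n : ℕ) : kbar k Ω) := ⟨Nat.cast_ne_zero.2 hN0.ne'⟩
      obtain ⟨ξ, hξ⟩ := HasEnoughRootsOfUnity.exists_primitiveRoot (kbar k Ω) (ℓ ^ n)
      rw [hξ.card_rootsOfUnity]
      exact hpn n
    have hopen : IsOpen (ε'.ker : Set (Iner F p)) := by
      have h4 : IsOpen {g : Iner F p | s ⟨g, g.2.1⟩ G = G} := by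
        have h5 : Continuous (fun g : Iner F p => (⟨g, g.2.1⟩ : F.fixingSubgroup)) :=
          Continuous.subtype_mk continuous_subtype_val _
        exact (hs.cont G).preimage h5
      refine Subgroup.isOpen_of_mem_nhds _ (g := 1) (Filter.mem_of_superset (h4.mem_nhds ?_) ?_)
      · show s ⟨((1 : Iner F p) : kbar k Ω ≃ₐ[k] kbar k Ω), _⟩ G = G
        have h6 : (⟨((1 : Iner F p) : kbar k Ω ≃ₐ[k] kbar k Ω), (1 : Iner F p).2.1⟩ :
            F.fixingSubgroup) = 1 := rfl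
        rw [h6, map_one]
        rfl
      · intro g hg
        have h7 : ε (toI g) = 1 := h3 (toI g) hg
        show ε' g = 1
        apply Subtype.ext
        apply Units.ext
        rw [hε', h7]
        rfl
    have h8 := iner_conj j hF hfin hp hpv hcard ε' hopen σ.2 hστ.acts
      ⟨δ, (hmemI _).1 δ.2⟩ ⟨δ', (hmemI _).1 δ'.2⟩ (by
        show ((δ' : F.fixingSubgroup) : kbar k Ω ≃ₐ[k] kbar k Ω) = _
        rw [hδ]
        rfl)
    have h9 := congrArg (fun t : rootsOfUnity (ℓ ^ n) (kbar k Ω) =>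
      ((t : (kbar k Ω)ˣ) : kbar k Ω)) h8
    exact h9

end Pool.Agent.SB
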